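import Pool.Agent.P.MP_0dc862_nt.Tab

/-! The quartic field, its embeddings and the lower bound for norms. -/

namespace Pool.Agent.P.MP_0dc862_nt

open Polynomial

section

variable {K : Type} [Field K] [CharZero K]

def ez (j : ℕ) (z : K) (n : V) : K := ev (2 * z / 3) (j * z ^ 2 * (z - 1) / 6) (z ^ 2 / 3) n

def Bz (j : ℕ) (z : K) : K := 5 + 4 * z + j * z ^ 2 / 2 + j * z ^ 3 / 2

variable {j : ℕ} {z : K} (hz : j * (z ^ 2) ^ 2 + (8 - j) * z ^ 2 - 12 = 0)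

include hz in
theorem ez_mul (n : V) : ez j z (mulV j n) = Bz j z * ez j z n :=
  ev_mulV (by unfold Bz; ring) (by unfold Bz; linear_combination 1 / 3 * hz)
    (by unfold Bz; linear_combination j * z ^ 2 / 12 * hz)
    (by unfold Bz; linear_combination (z + 1) / 6 * hz) n

include hz in
theorem Bz_mul : Bz j z * Bz j (-z) = 1 := by
  unfold Bz
  linear_combination (-2 - j * z ^ 2 / 4) * hz

theorem ez_norm (n : V) : 36 * (ez j z n * ez j (-z) n) =
    (6 * n.2.2.1 + (2 * n.2.2.2 - j * n.2.1) * z ^ 2) ^ 2 -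
      z ^ 2 * (4 * n.1 + j * n.2.1 * z ^ 2) ^ 2 := by
  unfold ez ev
  ring

include hz in
theorem ez_poly (P : ℤ[X]) {K' : Type} [Field K'] [CharZero K'] {z' : K'}
    (hz' : j * (z' ^ 2) ^ 2 + (8 - j) * z' ^ 2 - 12 = 0) :
    ∃ n, aeval (Bz j z) P = ez j z n ∧ aeval (Bz j z') P = ez j z' n := by
  induction P using Polynomial.induction_on with
  | C r => exact ⟨(0, 0, r, 0), by simp [ez, ev], by simp [ez, ev]⟩
  | add P Q hP hQ =>
    obtain ⟨n, h1, h2⟩ := hP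
    obtain ⟨m, h3, h4⟩ := hQ
    refine ⟨n + m, ?_, ?_⟩ <;> simp only [map_add, h1, h2, h3, h4, ez, ev, Prod.fst_add,
      Prod.snd_add] <;> push_cast <;> ring
  | monomial k r h =>
    obtain ⟨n, h1, h2⟩ := h
    exact ⟨mulV j n, by rw [ez_mul hz, ← h1, pow_succ, ← mul_assoc, map_mul, aeval_X, mul_comm],
      by rw [ez_mul hz', ← h2, pow_succ, ← mul_assoc, map_mul, aeval_X, mul_comm]⟩

end

variable {j : ℕ}

theorem form_zero (hj : 1 ≤ j) (hD : ¬IsSquare (j ^ 2 + 32 * j + 64)) {U W : ℤ}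
    (h : j * U ^ 2 + (j - 8) * U * W - 12 * W ^ 2 = 0) : U = 0 ∧ W = 0 := by
  have hW : W = 0 := by
    by_contra hW
    refine hD (Rat.isSquare_natCast_iff.1 ⟨(2 * j * U + (j - 8) * W) / W, ?_⟩)
    have h' : (j * U ^ 2 + (j - 8) * U * W - 12 * W ^ 2 : ℚ) = 0 := by exact_mod_cast h
    have : (W : ℚ) ≠ 0 := by exact_mod_cast hW
    field_simp
    push_cast
    linear_combination -4 * (j : ℚ) * h'
  subst hW
  have : j ≠ 0 := by omega
  simpa [this] using h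

/-- The two roots of the quadratic equation. -/
structure Roots (j : ℕ) (γ γ' : ℝ) : Prop where
  sum : j * (γ + γ') = j - 8
  prod : j * (γ * γ') = -12
  lo : 1 < γ
  hi : γ < 3 / 2
  neg : γ' < 0

theorem Roots.eq {γ γ' : ℝ} (h : Roots j γ γ') :
    j * γ ^ 2 + (8 - j) * γ - 12 = 0 ∧ j * γ' ^ 2 + (8 - j) * γ' - 12 = 0 :=
  ⟨by linear_combination γ * h.sum - h.prod, by linear_combination γ' * h.sum - h.prod⟩

theorem exists_roots (hj : 1 ≤ j) : ∃ γ γ', Roots j γ γ' := by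
  have h1 : (1 : ℝ) ≤ j := by exact_mod_cast hj
  obtain ⟨r, r0, hr⟩ : ∃ r : ℝ, 0 ≤ r ∧ r ^ 2 = j ^ 2 + 32 * j + 64 :=
    ⟨√(j ^ 2 + 32 * j + 64), Real.sqrt_nonneg _, Real.sq_sqrt (by positivity)⟩
  have a1 : j + 8 < r := lt_of_pow_lt_pow_left₀ 2 r0 (by nlinarith)
  have a2 : r < 2 * j + 8 := lt_of_pow_lt_pow_left₀ 2 (by positivity) (by nlinarith)
  refine ⟨(j - 8 + r) / (2 * j), (j - 8 - r) / (2 * j), by field_simp; ring, ?_, ?_, ?_, ?_⟩
  · field_simp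
    linear_combination -hr
  · rw [lt_div_iff₀ (by positivity)]
    linarith
  · rw [div_lt_iff₀ (by positivity)]
    linarith
  · exact div_neg_of_neg_of_pos (by linarith) (by positivity)

theorem norm_lb (hj : 1 ≤ j) (hD : ¬IsSquare (j ^ 2 + 32 * j + 64)) {γ γ' α : ℝ}
    (h : Roots j γ γ') (hα : α ^ 2 = γ) {z : ℂ} (hz : z ^ 2 = γ')
    (hc : (starRingEnd ℂ) z = -z) {n : V} (hn : n ≠ 0) :
    1 / (36 ^ 2 * j ^ 5) ≤ |ez j α n| * |ez j (-α) n| * ‖ez j z n‖ ^ 2 := by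
  have h1 : (1 : ℝ) ≤ j := by exact_mod_cast hj
  obtain ⟨q1, q2⟩ := h.eq
  have a1 := ez_norm (j := j) (z := α) n
  have a2 : 36 * ‖ez j z n‖ ^ 2 = (6 * n.2.2.1 + (2 * n.2.2.2 - j * n.2.1) * γ') ^ 2 -
      γ' * (4 * n.1 + j * n.2.1 * γ') ^ 2 := by
    have a := ez_norm (j := j) (z := z) n
    have c : ez j (-z) n = (starRingEnd ℂ) (ez j z n) := by
      simp [ez, ev, hc, map_ofNat]
    rw [c, Complex.mul_conj, Complex.normSq_eq_norm_sq, hz] at a
    exact_mod_cast a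
  rw [hα] at a1
  obtain ⟨n1, n2, n3, n4⟩ := n
  simp only at a1 a2
  obtain ⟨U, W, hU⟩ : ∃ U W : ℤ, ∀ s : ℝ, j * s ^ 2 + (8 - j) * s - 12 = 0 →
      j ^ 2 * ((6 * n3 + (2 * n4 - j * n2) * s) ^ 2 - s * (4 * n1 + j * n2 * s) ^ 2) =
        U + W * s := by
    refine ⟨j ^ 2 * (6 * n3) ^ 2 + 12 * j * ((2 * n4 - j * n2) ^ 2 - 2 * (4 * n1) * (j * n2)) -
      12 * (j - 8) * (j * n2) ^ 2, j ^ 2 * (2 * (6 * n3) * (2 * n4 - j * n2) - (4 * n1) ^ 2) +
      j * (j - 8) * ((2 * n4 - j * n2) ^ 2 - 2 * (4 * n1) * (j * n2)) -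
      (j * n2) ^ 2 * (12 * j + (j - 8) ^ 2), fun s hs => ?_⟩
    push_cast
    linear_combination (j * ((2 * n4 - j * n2) ^ 2 - 2 * (4 * n1) * (j * n2)) -
      (j * n2) ^ 2 * (j * s + (j - 8))) * hs
  have fm : ∀ U W : ℤ, ((j * U ^ 2 + (j - 8) * U * W - 12 * W ^ 2 : ℤ) : ℝ) =
      j * ((U + W * γ) * (U + W * γ')) := fun U W => by
    push_cast
    linear_combination -(U * W : ℝ) * h.sum - (W : ℝ) ^ 2 * h.prod
  have ir : ∀ U W : ℤ, U + W * γ' = 0 → U = 0 ∧ W = 0 := fun U W e =>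
    form_zero hj hD (by have := fm U W; rw [e, mul_zero, mul_zero] at this; exact_mod_cast this)
  have m0 : j * U ^ 2 + (j - 8) * U * W - 12 * W ^ 2 ≠ 0 := fun e => by
    obtain ⟨rfl, rfl⟩ := form_zero hj hD e
    have b1 := hU γ' q2
    simp only [Int.cast_zero, zero_mul, add_zero, mul_eq_zero] at b1
    have b2 := b1.resolve_left (by positivity)
    have b3 := mul_nonneg (neg_nonneg.2 h.neg.le) (sq_nonneg (4 * n1 + j * n2 * γ'))
    have b4 : (6 * n3 + (2 * n4 - j * n2) * γ') ^ 2 = 0 := le_antisymm (by linarith) (sq_nonneg _)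
    have b5 : γ' * (4 * n1 + j * n2 * γ') ^ 2 = 0 := by linarith
    have c1 := ir (6 * n3) (2 * n4 - j * n2) (by push_cast; exact pow_eq_zero_iff two_ne_zero |>.1 b4)
    have c2 := ir (4 * n1) (j * n2) (by
      push_cast
      exact pow_eq_zero_iff two_ne_zero |>.1 ((mul_eq_zero.1 b5).resolve_left h.neg.ne))
    have c3 : n2 = 0 := (mul_eq_zero.1 c2.2).resolve_left (by omega)
    subst c3
    refine hn (Prod.ext ?_ (Prod.ext rfl (Prod.ext ?_ ?_))) <;> simp only [Prod.fst_zero,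
      Prod.snd_zero] <;> omega
  have m1 : (1 : ℝ) ≤ |((j * U ^ 2 + (j - 8) * U * W - 12 * W ^ 2 : ℤ) : ℝ)| := by
    exact_mod_cast Int.one_le_abs m0
  rw [fm, ← hU γ q1, ← hU γ' q2, ← a1, ← a2] at m1
  rw [div_le_iff₀ (by positivity)]
  refine m1.trans_eq ?_
  simp only [abs_mul, abs_pow, Nat.abs_cast, abs_norm, Nat.abs_ofNat]
  ring

theorem good {γ γ' α : ℝ} (hj : 1 ≤ j) (h : Roots j γ γ') (hα : α ^ 2 = γ) (α0 : 0 ≤ α) :
    Good (2 * α / 3) (j * α ^ 2 * (α - 1) / 6) (α ^ 2 / 3) (j * (α ^ 2 / 3)) (Bz j α) (Bz j (-α))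
      (IxJ j (α ^ 2 / 3)) := by
  have h1 : (1 : ℝ) ≤ j := by exact_mod_cast hj
  have hz := h.eq.1
  have l1 := h.lo
  have l2 := h.hi
  rw [← hα] at hz l1 l2
  have α1 : 1 < α := by nlinarith
  have α2 : α < 5 / 4 := by nlinarith
  have c0 : 0 < α ^ 2 / 3 := by linarith
  refine ⟨by unfold Bz; ring, by unfold Bz; linear_combination 1 / 3 * hz,
    by unfold Bz; linear_combination j * α ^ 2 / 12 * hz,
    by unfold Bz; linear_combination (α + 1) / 6 * hz, by unfold Bz; ring,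
    by unfold Bz; linear_combination -1 / 3 * hz,
    by unfold Bz; linear_combination -j * α ^ 2 / 12 * hz,
    by unfold Bz; linear_combination (-α + 1) / 6 * hz, Bz_mul hz,
    by have := sub_pos.2 α1; positivity, by linarith, by linarith, by linarith, by linarith,
    by nlinarith, ⟨0, j.zero_le, by simp⟩, ?_, ?_⟩
  · rintro _ ⟨i, hi, rfl⟩
    refine ⟨by positivity, by gcongr, ⟨j - i, j.sub_le i, by rw [Nat.cast_sub hi]; ring⟩, ?_⟩
    rcases hi.eq_or_lt with rfl | hi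
    · exact .inl rfl
    · have : (i + 1 : ℝ) ≤ j := by exact_mod_cast hi
      exact .inr (by nlinarith)
  · rintro _ _ ⟨i, -, rfl⟩ ⟨i', -, rfl⟩ k1 k2
    have k3 : (i : ℝ) < i' + 1 := lt_of_mul_lt_mul_right (by linarith) c0.le
    have k4 : (i' : ℝ) < i + 1 := lt_of_mul_lt_mul_right (by linarith) c0.le
    have : i = i' := by
      have k3 : i < i' + 1 := by exact_mod_cast k3
      have k4 : i' < i + 1 := by exact_mod_cast k4
      omega
    rw [this]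

theorem not_sq (hj : 1 ≤ j) (h3 : j ≠ 3) (h10 : j ≠ 10) (h33 : j ≠ 33) :
    ¬IsSquare (j ^ 2 + 32 * j + 64) := by
  rintro ⟨r, hr⟩
  have a1 : r < j + 16 := by nlinarith
  obtain ⟨e, he⟩ : ∃ e, j + 16 = r + e := ⟨j + 16 - r, by omega⟩
  have a2 : e * (2 * r + e) = 192 := by nlinarith
  have a3 : e < 14 := by nlinarith
  interval_cases e <;> omega

end Pool.Agent.P.MP_0dc862_nt
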