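import Pool.Agent.P.MP_0dc862_nt.Alg

/-! Symmetric points that do not return are few; the product of the base is a Salem number. -/

namespace Pool.Agent.P.MP_0dc862_nt

open Finset Polynomial

variable {j : ℕ} {γ γ' α : ℝ} {z : ℂ}

theorem ez_sub {K : Type} [Field K] (z : K) (n m : V) : ez j z (n - m) = ez j z n - ez j z m :=
  ev_sub _ _ _ n m

theorem ez_smul {K : Type} [Field K] (z : K) (q : ℤ) (n : V) : ez j z (q • n) = q * ez j z n :=
  ev_smul _ _ _ q n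

theorem ez_zero (hj : 1 ≤ j) (hD : ¬IsSquare (j ^ 2 + 32 * j + 64)) (h : Roots j γ γ')
    (hα : α ^ 2 = γ) (hz : z ^ 2 = γ') (hc : (starRingEnd ℂ) z = -z) {n : V}
    (hn : ez j α n = 0 ∨ ez j z n = 0) : n = 0 := by
  by_contra h0
  have a1 := norm_lb hj hD h hα hz hc h0
  have a2 : (0 : ℝ) < 1 / (36 ^ 2 * j ^ 5) := by positivity
  rcases hn with e | e <;> rw [e] at a1 <;> simp only [abs_zero, norm_zero, zero_mul] at a1 <;>
    linarith

theorem Roots.eqC (h : Roots j γ γ') (hz : z ^ 2 = γ') :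
    j * (z ^ 2) ^ 2 + (8 - j) * z ^ 2 - 12 = 0 := by
  rw [hz]
  exact_mod_cast h.eq.2

theorem Bz_norm (h : Roots j γ γ') (hz : z ^ 2 = γ') (hc : (starRingEnd ℂ) z = -z) :
    ‖Bz j z‖ = 1 := by
  have a := Bz_mul (h.eqC hz)
  have c : Bz j (-z) = (starRingEnd ℂ) (Bz j z) := by simp [Bz, hc, map_ofNat]
  rw [c, Complex.mul_conj, Complex.normSq_eq_norm_sq] at a
  exact (pow_eq_one_iff_of_nonneg (norm_nonneg _) two_ne_zero).1 (by exact_mod_cast a)

theorem core (hj : 1 ≤ j) (hD : ¬IsSquare (j ^ 2 + 32 * j + 64)) (h : Roots j γ γ')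
    (hα : α ^ 2 = γ) (α0 : 0 ≤ α) (hz : z ^ 2 = γ') (hc : (starRingEnd ℂ) z = -z) {q : ℕ}
    (hq : 0 < q) {ε : ℝ} (hε : 0 < ε) : ∃ R0 : ℝ, ∀ R ≥ R0, ∀ B : Finset (ℤ × ℤ),
      (∀ m ∈ B, |(m.2 : ℝ)| ≤ R ∧ ∃ t : ℕ → ℝ, t 0 = α / 3 + (m.1 + m.2 * (10 + j * α ^ 2)) / q ∧
        0 ≤ t 0 ∧ t 0 < 1 ∧ (∀ n, t (n + 1) = Int.fract (bs (fun k => ez j α (wv j k)) (3 * j + 10)
          (n % (3 * j + 10)) * t n)) ∧ ∀ k > 0, t (k * (3 * j + 10)) ≠ t 0) → (#B : ℝ) ≤ ε * R := by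
  classical
  have G := good hj h hα α0
  have hα' := h.eq.1
  rw [← hα] at hα'
  have hα'' : j * ((-α) ^ 2) ^ 2 + (8 - j) * (-α) ^ 2 - 12 = 0 := by rwa [neg_sq]
  set a := 2 * α / 3 with ha
  set b := j * α ^ 2 * (α - 1) / 6 with hb
  set c := α ^ 2 / 3 with hc'
  set β := Bz j α with hβ
  set p := Bz j (-α) with hp
  have q0 : (0 : ℝ) < q := by exact_mod_cast hq
  have wxe : wx j a b c = fun k => ez j α (wv j k) := rfl
  have wye : ∀ k, wy j a b c k = ez j (-α) (wv j k) := fun k => by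
    simp only [wy, ez, ev, ha, hb, hc']
    ring
  let π : V → ℝ × ℝ := fun n => (ez j α n / (2 * q), ez j (-α) n / (2 * q))
  let d : V → ℕ := fun n => dig (wx j a b c) (3 * j + 10) (β * (π n).1)
  let F0 : V → V := fun n => mulV j n - (2 * q : ℤ) • wv j (d n)
  have hF0 : ∀ n, π (F0 n) = Gm j a b c β p (π n) := fun n => by
    simp only [π, F0, Gm, ez_sub, ez_smul, ez_mul hα', ez_mul hα'', wye, d, ← hβ, ← hp]
    refine Prod.ext ?_ ?_ <;> simp only [wxe] <;> push_cast <;> field_simp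
  let Ω := {n : V // ∃ u, Rl a b c (j * c) (IxJ j c) (π n) u}
  let F : Ω → Ω := fun n => ⟨F0 n.1, by
    obtain ⟨u, hu⟩ := n.2
    obtain ⟨u', h1, -⟩ := G.rev _ _ hu
    exact ⟨u', hF0 n.1 ▸ h1⟩⟩
  have bd : ∀ n : Ω, 0 ≤ (π n.1).1 ∧ (π n.1).1 < 1 ∧ -2 ≤ (π n.1).2 ∧ (π n.1).2 ≤ j * c + 2 :=
    fun n => n.2.choose_spec.bd G
  have hit : ∀ k (n : Ω), π (F^[k] n).1 = (Gm j a b c β p)^[k] (π n.1) := fun k => by
    induction k with
    | zero => exact fun _ => rfl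
    | succ k ih =>
      intro n
      rw [Function.iterate_succ_apply', Function.iterate_succ_apply', ← ih, ← hF0]
  obtain ⟨f1, f2, f3, f4, f5, f6, f7, f8, f9⟩ := G.facts
  have g1 := G.e1
  have g2 := G.e5
  have g3 := G.a0
  have g4 := G.b0
  have g5 := G.c0
  have g6 := G.cJ
  have g7 := G.a1
  have g8 := G.c1
  have g9 := G.e6
  have D : Dyn (3 * j + 10) (wx j a b c) (fun k => ez j z (wv j k)) β (Bz j z) F
      (fun n => (π n.1).1) (fun n => ez j z n.1 / (2 * q)) fun n => d n.1 :=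
    { mono := fun k hk => (G.gap k hk).1.le
      w0 := tab_d.1.1.symm
      w1 := tab_d.1.2.1.symm
      ws := G.top
      hβ := by linarith
      hω := Bz_norm h hz hc
      hω1 := fun e => by
        have := ez_zero hj hD h hα hz hc (n := (6, 3, 4, 3 * j)) (.inr (by
          simp only [ez, ev, Bz] at e ⊢
          push_cast
          linear_combination e))
        simp at this
      hd := fun n => G.dig (bd n).1 (bd n).2.1
      hx := fun n => congrArg Prod.fst (hF0 n.1)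
      hζ := fun n => by
        have : (q : ℂ) ≠ 0 := by exact_mod_cast hq.ne'
        simp only [F, F0, ez_sub, ez_smul, ez_mul (h.eqC hz)]
        push_cast
        field_simp
      x0 := fun n => ⟨(bd n).1, (bd n).2.1⟩ }
  have nl : ∀ n n' : Ω, n ≠ n' → 1 / (36 ^ 2 * j ^ 5) / (2 * q) ^ 4 ≤ |(π n.1).1 - (π n'.1).1| *
      |(π n.1).2 - (π n'.1).2| * ‖ez j z n.1 / (2 * q) - ez j z n'.1 / (2 * q)‖ ^ 2 := by
    intro n n' hn
    have := norm_lb hj hD h hα hz hc (n := n.1 - n'.1) (sub_ne_zero.2 (Subtype.coe_ne_coe.2 hn))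
    refine (div_le_div_of_nonneg_right this (by positivity)).trans_eq ?_
    simp only [π, ← sub_div, ← ez_sub, abs_div, norm_div, abs_mul, norm_mul, Nat.abs_cast,
      Nat.abs_ofNat, Complex.norm_natCast, Complex.norm_ofNat]
    field_simp
  have κ0 : (0 : ℝ) < 1 / (36 ^ 2 * j ^ 5) / (2 * q) ^ 4 := by positivity
  obtain ⟨C, C0, hC⟩ : ∃ C : ℝ, 0 < C ∧ C = ‖z‖ + 2 + j * (γ - γ') :=
    ⟨_, by have := h.lo; have := sub_pos.2 (h.neg.trans (by linarith : 0 < γ)); positivity, rfl⟩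
  obtain ⟨R0, hR0⟩ := D.few (Λ := {1, a, a + b, c}) (by simp) G.closed (by
      simp only [mem_insert, mem_singleton]
      rintro l (rfl | rfl | rfl | rfl) <;> refine ⟨by nlinarith, by linarith, by linarith⟩)
    (κ := 243 * (j * c + 4) / _) (by positivity)
    (pack κ0 (by linarith : 0 < j * c + 4) (fun n n' => abs_le.2
      ⟨by linarith [(bd n).2.2.1, (bd n').2.2.2], by linarith [(bd n).2.2.2, (bd n').2.2.1]⟩) nl)
    (div_pos hε C0)
  refine ⟨max 1 (R0 / C), fun R hR B hB => ?_⟩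
  have R1 : 1 ≤ R := (le_max_left _ _).trans hR
  let vec : ℤ × ℤ → V := fun m => (q, 0, 2 * m.1 + 20 * m.2, 6 * j * m.2)
  have hv : ∀ m, π (vec m) = (α / 3 + (m.1 + m.2 * (10 + j * α ^ 2)) / q,
      α / 3 + (m.1 + m.2 * (10 + j * α ^ 2)) / q - a) := fun m => by
    refine Prod.ext ?_ ?_ <;> simp only [π, vec, ez, ev, ha] <;> push_cast <;> field_simp <;> ring
  have hs : ∀ m ∈ B, Rl a b c (j * c) (IxJ j c) (π (vec m)) (π (vec m)) := fun m hm => by
    obtain ⟨-, t, h0, h1, h2, -⟩ := hB m hm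
    rw [hv, ← h0]
    exact Rl.diag G h1 h2
  let φ : B → Ω := fun m => ⟨vec m.1, _, hs m.1 m.2⟩
  have φi : Function.Injective φ := fun m m' e => by
    have := congrArg Subtype.val e
    simp only [φ, vec, Prod.mk.injEq, true_and] at this
    have e2 : m.1.2 = m'.1.2 := mul_left_cancel₀ (by omega) this.2
    exact Subtype.ext (Prod.ext (by omega) e2)
  have np : ∀ m : B, ∀ k > 0, (Gm j a b c β p)^[k] (π (φ m).1) ≠ π (φ m).1 := by
    intro m k hk e
    obtain ⟨-, t, h0, -, -, ht, hn⟩ := hB m.1 m.2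
    have : ∀ i, t (i * (3 * j + 10)) = (π (F^[i] (φ m)).1).1 := by
      intro i
      induction i with
      | zero => rw [zero_mul, h0]; exact (congrArg Prod.fst (hv m.1)).symm
      | succ i ih =>
        obtain ⟨d1, d2, d3⟩ := D.hd (F^[i] (φ m))
        rw [Function.iterate_succ_apply', D.hx, bs_step D.w0 D.w1 (fun k hk => (G.gap k hk).1)
          (fun k hk => (G.gap k hk).2) ht d1 (by rwa [G.top, ih]) (by rwa [G.top, ih]), G.top, ih]
    refine hn k hk ?_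
    rw [this k, hit, e, ← zero_mul (3 * j + 10), this 0]
    rfl
  have fin := hR0 (C * R) (by
      have := (div_le_iff₀ C0).1 ((le_max_right _ _).trans hR)
      linarith) (univ.image φ) ?_ ?_
  · rw [card_image_of_injective _ φi, card_univ, Fintype.card_coe] at fin
    exact fin.trans_eq (by field_simp)
  · intro n hn
    obtain ⟨m, -, rfl⟩ := mem_image.1 hn
    obtain ⟨h1, t, h0, h2, h3, -⟩ := hB m.1 m.2
    have q1 : (1 : ℝ) ≤ q := by exact_mod_cast hq
    have e : ez j z (φ m).1 / (2 * q) =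
        z / 3 + ((t 0 - α / 3 - m.1.2 * (j * (γ - γ')) / q : ℝ) : ℂ) := by
      have : (q : ℂ) ≠ 0 := by exact_mod_cast hq.ne'
      simp only [φ, vec, ez, ev, h0, hz, ← hα]
      push_cast
      field_simp
      ring
    have γ0 : 0 ≤ j * (γ - γ') := by
      have := sub_pos.2 (h.neg.trans (by linarith [h.lo] : 0 < γ))
      positivity
    have e1 : |m.1.2 * (j * (γ - γ')) / q| ≤ R * (j * (γ - γ')) := by
      rw [abs_div, abs_mul, abs_of_nonneg γ0, abs_of_pos q0]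
      exact (div_le_self (by positivity) q1).trans (by gcongr)
    have e2 := abs_sub (t 0 - α / 3) (m.1.2 * (j * (γ - γ')) / q)
    have e3 : |t 0 - α / 3| ≤ 2 := abs_le.2 ⟨by linarith, by linarith⟩
    rw [e]
    refine (norm_add_le _ _).trans ?_
    rw [Complex.norm_real, Real.norm_eq_abs, norm_div, Complex.norm_ofNat, hC]
    nlinarith [norm_nonneg z]
  · intro n hn n' hn' k k' e
    obtain ⟨m, -, rfl⟩ := mem_image.1 hn
    obtain ⟨m', -, rfl⟩ := mem_image.1 hn'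
    obtain ⟨e1, e2⟩ := sym_orbit (Rl.uniq G) (Rl.symm G) G.rev (hs m.1 m.2) (hs m'.1 m'.2) (np m)
      (np m') (n := k) (m := k') (by rw [← hit k (φ m), ← hit k' (φ m'), e])
    refine ⟨by_contra fun ne => ?_, e2⟩
    have := nl _ _ ne
    rw [show π (φ m).1 = π (φ m').1 from e1, sub_self, abs_zero, zero_mul, zero_mul] at this
    linarith

theorem salem (hj : 1 ≤ j) (hD : ¬IsSquare (j ^ 2 + 32 * j + 64)) (h : Roots j γ γ')
    (hα : α ^ 2 = γ) (α0 : 0 ≤ α) (hz : z ^ 2 = γ') (hc : (starRingEnd ℂ) z = -z) :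
    Bz j α ^ 4 - (12 + j) * Bz j α ^ 3 + (22 - 2 * j) * Bz j α ^ 2 - (12 + j) * Bz j α + 1 = 0 ∧
    IsIntegral ℤ (Bz j α) ∧
    (∀ y ∈ (minpoly ℤ (Bz j α)).aroots ℂ, y ≠ ((Bz j α : ℝ) : ℂ) → ‖y‖ ≤ 1) ∧
    ∃ y ∈ (minpoly ℤ (Bz j α)).aroots ℂ, ‖y‖ = 1 := by
  have G := good hj h hα α0
  have hα' := h.eq.1
  rw [← hα] at hα'
  have s1 : Bz j α + Bz j (-α) = 10 + j * γ := by rw [← hα]; unfold Bz; ring
  have s2 : Bz j z + Bz j (-z) = 10 + j * γ' := by rw [← hz]; unfold Bz; ring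
  have p1 := G.e9
  have p2 := Bz_mul (h.eqC hz)
  have fac : ∀ y : ℂ, y ^ 4 - (12 + j) * y ^ 3 + (22 - 2 * j) * y ^ 2 - (12 + j) * y + 1 =
      (y - (Bz j α : ℝ)) * (y - (Bz j (-α) : ℝ)) * ((y - Bz j z) * (y - Bz j (-z))) := by
    intro y
    have t1 : (y - (Bz j α : ℝ)) * (y - (Bz j (-α) : ℝ)) = y ^ 2 - (10 + j * γ) * y + 1 := by
      have s1 : ((Bz j α : ℝ) : ℂ) + (Bz j (-α) : ℝ) = 10 + j * γ := by exact_mod_cast s1
      have p1 : ((Bz j α : ℝ) : ℂ) * (Bz j (-α) : ℝ) = 1 := by exact_mod_cast p1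
      linear_combination -y * s1 + p1
    have t2 : (y - Bz j z) * (y - Bz j (-z)) = y ^ 2 - (10 + j * γ') * y + 1 := by
      linear_combination -y * s2 + p2
    have u1 : (j : ℂ) * (γ + γ') = j - 8 := by exact_mod_cast h.sum
    have u2 : (j : ℂ) * (γ * γ') = -12 := by exact_mod_cast h.prod
    rw [t1, t2]
    linear_combination (y ^ 3 - 10 * y ^ 2 + y) * u1 - j * y ^ 2 * u2
  have e0 : Bz j α ^ 4 - (12 + j) * Bz j α ^ 3 + (22 - 2 * j) * Bz j α ^ 2 - (12 + j) * Bz j α + 1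
      = 0 := by
    have := fac (Bz j α : ℝ)
    rw [sub_self, zero_mul, zero_mul] at this
    exact_mod_cast this
  let χ : ℤ[X] := X ^ 4 - C (12 + j : ℤ) * X ^ 3 + C (22 - 2 * j : ℤ) * X ^ 2 -
    C (12 + j : ℤ) * X + 1
  have hχ : aeval (Bz j α) χ = 0 := by
    simp only [χ, map_add, map_sub, map_mul, map_pow, aeval_X, map_one, map_natCast,
      map_ofNat]
    exact e0
  have hi : IsIntegral ℤ (Bz j α) := ⟨χ, by unfold χ; monicity!, hχ⟩
  refine ⟨e0, hi, fun y hy hne => ?_, Bz j z, mem_aroots.2 ⟨minpoly.ne_zero hi, ?_⟩,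
    Bz_norm h hz hc⟩
  · obtain ⟨P, hP⟩ := minpoly.isIntegrallyClosed_dvd hi hχ
    have a1 : aeval y χ = 0 := by rw [hP, map_mul, (mem_aroots.1 hy).2, zero_mul]
    simp only [χ, map_add, map_sub, map_mul, map_pow, aeval_X, map_one, map_natCast,
      map_ofNat] at a1
    rw [fac] at a1
    simp only [mul_eq_zero, sub_eq_zero] at a1
    rcases a1 with (e | e) | e | e
    · exact absurd e hne
    · rw [e, Complex.norm_real, Real.norm_of_nonneg G.facts.2.1.le]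
      linarith [G.facts.2.2.2.2.2.2.2.1]
    · rw [e, Bz_norm h hz hc]
    · rw [e, Bz_norm h (z := -z) (by rwa [neg_sq]) (by rw [map_neg, hc])]
  · obtain ⟨n, h1, h2⟩ := ez_poly hα' (minpoly ℤ (Bz j α)) (h.eqC hz)
    rw [minpoly.aeval] at h1
    rw [h2, ez_zero hj hD h hα hz hc (.inl h1.symm)]
    simp [ez, ev]

end Pool.Agent.P.MP_0dc862_nt
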