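import Mathlib

/-! Few orbits escape: a second moment bound for twisted digit sums and its consequence. -/

namespace Pool.Agent.P.MP_0dc862_nt

open Finset

/-- A greedy map with digits `w 0 < ... < w s`, together with a rotated coordinate. -/
structure Dyn {Ω : Type} (s : ℕ) (w : ℕ → ℝ) (g : ℕ → ℂ) (β : ℝ) (ω : ℂ) (F : Ω → Ω) (x : Ω → ℝ)
    (ζ : Ω → ℂ) (d : Ω → ℕ) : Prop where
  mono : ∀ k ≤ s, w k ≤ w (k + 1)
  w0 : w 0 = 0
  w1 : w 1 = 1
  ws : w (s + 1) = β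
  hβ : 1 < β
  hω : ‖ω‖ = 1
  hω1 : ω ≠ 1
  hd : ∀ z, d z ≤ s ∧ w (d z) ≤ β * x z ∧ β * x z < w (d z + 1)
  hx : ∀ z, x (F z) = β * x z - w (d z)
  hζ : ∀ z, ζ (F z) = ω * ζ z - g (d z)
  x0 : ∀ z, 0 ≤ x z ∧ x z < 1

/-- Length of the image of the branch `k` of `[0, l)`. -/
noncomputable def len (w : ℕ → ℝ) (β l : ℝ) (k : ℕ) : ℝ := min (w (k + 1)) (β * l) - min (w k) (β * l)

variable {Ω : Type} {s : ℕ} {w : ℕ → ℝ} {g : ℕ → ℂ} {β : ℝ} {ω : ℂ} {F : Ω → Ω} {x : Ω → ℝ}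
  {ζ : Ω → ℂ} {d : Ω → ℕ}

theorem Dyn.len_nonneg (D : Dyn s w g β ω F x ζ d) (l : ℝ) {k : ℕ} (hk : k ≤ s) :
    0 ≤ len w β l k := sub_nonneg.2 (min_le_min_right _ (D.mono k hk))

theorem Dyn.sum_len (D : Dyn s w g β ω F x ζ d) {l : ℝ} (h0 : 0 ≤ l) (h1 : l ≤ 1) :
    ∑ k ∈ range (s + 1), len w β l k = β * l := by
  have hb := D.hβ
  unfold len
  rw [sum_range_sub fun k => min (w k) (β * l), D.ws, D.w0, min_eq_right (by nlinarith),
    min_eq_left (by positivity), sub_zero]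

theorem norm_add_sq' (u v : ℂ) :
    ‖u + v‖ ^ 2 = ‖u‖ ^ 2 + 2 * ((starRingEnd ℂ) u * v).re + ‖v‖ ^ 2 := by
  simp only [Complex.sq_norm, Complex.normSq_apply, Complex.add_re, Complex.add_im,
    Complex.mul_re, Complex.conj_re, Complex.conj_im]
  ring

open Classical in
theorem Dyn.moment (D : Dyn s w g β ω F x ζ d) {ι : Type} {Λ : Finset ℝ} {h : ℝ → ℂ} {V m0 : ℝ}
    (hh : ∀ l ∈ Λ, ∑ k ∈ range (s + 1), (len w β l k : ℂ) * (h (len w β l k) - ω * h l - g k) = 0)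
    (hV : ∀ l ∈ Λ, ∀ k ≤ s, ‖h (len w β l k) - ω * h l - g k‖ ^ 2 ≤ V)
    (hH : ∀ l ∈ Λ, ‖h l‖ ^ 2 ≤ V) (hc : ∀ l ∈ Λ, ∀ k ≤ s, w k < β * l → len w β l k ∈ Λ)
    (hm : ∀ l ∈ Λ, m0 ≤ l ∧ 0 ≤ l ∧ l ≤ 1) (N : ℕ) :
    ∀ l ∈ Λ, ∀ (Z : Finset ι) (f : ι → Ω) (A δ : ℝ) (c : ℂ), 0 ≤ A → δ * β ^ N ≤ m0 →
      (∀ z ∈ Z, x (f z) < l) →
      (∀ u r, δ ≤ r → (#{z ∈ Z | u ≤ x (f z) ∧ x (f z) < u + r} : ℝ) ≤ A * r) →
      ∑ z ∈ Z, ‖ζ (F^[N] (f z)) - ω ^ N * (ζ (f z) - c)‖ ^ 2 ≤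
        2 * A * l * (‖c + h l‖ ^ 2 + (N + 1) * V) := by
  have hb : 0 < β := zero_lt_one.trans D.hβ
  induction N with
  | zero =>
    intro l hl Z f A δ c hA hδ hZ hp
    have h1 := hp 0 l (by linarith [(hm l hl).1, show δ * β ^ 0 = δ by simp])
    rw [filter_true_of_mem fun z hz => ⟨(D.x0 _).1, by simpa using hZ z hz⟩] at h1
    have h2 : ‖c‖ ^ 2 ≤ 2 * (‖c + h l‖ ^ 2 + V) := by
      have := norm_sub_le (c + h l) (h l)
      rw [add_sub_cancel_right] at this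
      nlinarith [hH l hl, norm_nonneg c, sq_nonneg (‖c + h l‖ - ‖h l‖), norm_nonneg (h l),
        norm_nonneg (c + h l)]
    simp only [Function.iterate_zero, id, pow_zero, one_mul, sub_sub_cancel, sum_const,
      nsmul_eq_mul, Nat.cast_zero, zero_add]
    calc (#Z : ℝ) * ‖c‖ ^ 2 ≤ A * l * (2 * (‖c + h l‖ ^ 2 + V)) :=
          mul_le_mul h1 h2 (sq_nonneg _) (mul_nonneg hA (hm l hl).2.1)
      _ = _ := by ring
  | succ N ih =>
    intro l hl Z f A δ c hA hδ hZ hp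
    have hV0 : 0 ≤ V := (sq_nonneg _).trans (hH l hl)
    have key : ∀ k ∈ range (s + 1), ∑ z ∈ Z with d (f z) = k,
        ‖ζ (F^[N + 1] (f z)) - ω ^ (N + 1) * (ζ (f z) - c)‖ ^ 2 ≤ 2 * (A / β) * len w β l k *
          (‖ω * (c + h l) + (h (len w β l k) - ω * h l - g k)‖ ^ 2 + (N + 1) * V) := by
      intro k hk
      have hk' : k ≤ s := Nat.lt_succ_iff.1 (mem_range.1 hk)
      rcases (Z.filter fun z => d (f z) = k).eq_empty_or_nonempty with he | ⟨z0, hz0⟩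
      · rw [he, sum_empty]
        have := D.len_nonneg l hk'
        positivity
      have hw : w k < β * l := by
        obtain ⟨h1, rfl⟩ := mem_filter.1 hz0
        exact (D.hd _).2.1.trans_lt (mul_lt_mul_of_pos_left (hZ z0 h1) hb)
      have := ih _ (hc l hl k hk' hw) (Z.filter fun z => d (f z) = k) (fun z => F (f z)) (A / β)
        (δ * β) (ω * c - g k) (by positivity) (by rw [pow_succ] at hδ; linarith) ?_ ?_
      · convert this using 4 with z hz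
        · rw [Function.iterate_succ_apply, D.hζ, (mem_filter.1 hz).2]
          ring_nf
        · ring_nf
      · intro z hz
        obtain ⟨h1, rfl⟩ := mem_filter.1 hz
        rw [D.hx, len, min_eq_left hw.le]
        exact sub_lt_sub_right (lt_min (D.hd _).2.2 (mul_lt_mul_of_pos_left (hZ z h1) hb)) _
      · intro u r hr
        refine le_trans ?_ ((hp ((u + w k) / β) (r / β) ((le_div_iff₀ hb).2 hr)).trans_eq
          (by ring))
        refine Nat.cast_le.2 (card_le_card fun z hz => ?_)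
        simp only [mem_filter] at hz ⊢
        obtain ⟨⟨h1, rfl⟩, h2, h3⟩ := hz
        rw [D.hx] at h2 h3
        refine ⟨h1, (div_le_iff₀ hb).2 (by linarith), ?_⟩
        rw [← add_div, lt_div_iff₀ hb]
        linarith
    rw [← sum_fiberwise_of_maps_to (t := range (s + 1)) (g := fun z => d (f z))
      fun z _ => mem_range.2 (Nat.lt_succ_iff.2 (D.hd _).1)]
    refine (sum_le_sum key).trans ?_
    have e1 : ∑ k ∈ range (s + 1), len w β l k *
        ((starRingEnd ℂ) (ω * (c + h l)) * (h (len w β l k) - ω * h l - g k)).re = 0 := by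
      have := congrArg (fun t => ((starRingEnd ℂ) (ω * (c + h l)) * t).re) (hh l hl)
      simp only [mul_sum, Complex.re_sum, mul_zero, Complex.zero_re] at this
      rw [← this]
      exact sum_congr rfl fun k _ => by rw [mul_left_comm, Complex.re_ofReal_mul]
    calc _ ≤ ∑ k ∈ range (s + 1), (2 * (A / β) * (‖c + h l‖ ^ 2 + (N + 1 + 1) * V) *
          len w β l k + 4 * (A / β) * (len w β l k *
          ((starRingEnd ℂ) (ω * (c + h l)) * (h (len w β l k) - ω * h l - g k)).re)) := by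
          refine sum_le_sum fun k hk => ?_
          have hk' : k ≤ s := Nat.lt_succ_iff.1 (mem_range.1 hk)
          rw [norm_add_sq', norm_mul, D.hω, one_mul]
          have := mul_le_mul_of_nonneg_left (hV l hl k hk')
            (mul_nonneg (by positivity : 0 ≤ 2 * (A / β)) (D.len_nonneg l hk'))
          linarith
      _ = _ := by
          rw [sum_add_distrib, ← mul_sum, ← mul_sum, e1, D.sum_len (hm l hl).2.1 (hm l hl).2.2]
          push_cast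
          field_simp
          ring

theorem Dyn.exists_h (D : Dyn s w g β ω F x ζ d) {Λ : Finset ℝ} (h1 : 1 ∈ Λ)
    (hm : ∀ l ∈ Λ, 1 ≤ β * l ∧ 0 ≤ l ∧ l ≤ 1) : ∃ h : ℝ → ℂ, ∀ l ∈ Λ,
      ∑ k ∈ range (s + 1), (len w β l k : ℂ) * (h (len w β l k) - ω * h l - g k) = 0 := by
  classical
  let E : (Λ → ℂ) →ₗ[ℂ] ℝ → ℂ := LinearMap.pi fun t =>
    if ht : t ∈ Λ then LinearMap.proj (⟨t, ht⟩ : Λ) else 0
  have hE : ∀ (v : Λ → ℂ) (t : Λ), E v t = v t := fun v t => by simp [E]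
  have hE0 : ∀ (v : Λ → ℂ) (t : ℝ), t ∉ Λ → E v t = 0 := fun v t ht => by simp [E, ht]
  let L : (Λ → ℂ) →ₗ[ℂ] Λ → ℂ := LinearMap.pi fun l => ∑ k ∈ range (s + 1),
    (len w β l k : ℂ) • ((LinearMap.proj (len w β l k)).comp E - ω • LinearMap.proj l)
  have hL : ∀ (v : Λ → ℂ) (l : Λ), L v l = ∑ k ∈ range (s + 1),
      (len w β l k : ℂ) * (E v (len w β l k) - ω * v l) := fun v l => by
    simp [L, LinearMap.sum_apply]
  have inj : Function.Injective L := by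
    refine (injective_iff_map_eq_zero L).2 fun v hv => ?_
    obtain ⟨l0, -, hl0⟩ := exists_max_image univ (fun l : Λ => ‖v l‖) ⟨⟨1, h1⟩, mem_univ _⟩
    have hb : ∀ t, ‖E v t‖ ≤ ‖v l0‖ := fun t => by
      by_cases ht : t ∈ Λ
      · rw [hE v ⟨t, ht⟩]
        exact hl0 _ (mem_univ _)
      · rw [hE0 v t ht, norm_zero]
        exact norm_nonneg _
    have key : ∀ l : Λ, ‖ω * ((β * l : ℝ) : ℂ) * v l - v ⟨1, h1⟩‖ ≤ (β * l - 1) * ‖v l0‖ := by
      intro l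
      obtain ⟨m1, m2, m3⟩ := hm l l.2
      have e0 : len w β l 0 = 1 := by
        rw [len, zero_add, D.w0, D.w1, min_eq_left m1, min_eq_left (by linarith), sub_zero]
      have e1 := D.sum_len m2 m3
      have e2 := congrFun hv l
      rw [hL] at e2
      simp only [mul_sub, sum_sub_distrib, ← sum_mul, Pi.zero_apply] at e2
      rw [← Complex.ofReal_sum, e1, sum_range_succ', e0, hE v ⟨1, h1⟩] at e2
      rw [sum_range_succ', e0] at e1
      have e3 : ω * ((β * l : ℝ) : ℂ) * v l - v ⟨1, h1⟩ = ∑ k ∈ range s,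
          (len w β l (k + 1) : ℂ) * E v (len w β l (k + 1)) := by
        rw [Complex.ofReal_one] at e2
        linear_combination -e2
      rw [e3, ← eq_sub_of_add_eq e1, sum_mul]
      refine (norm_sum_le _ _).trans (sum_le_sum fun k hk => ?_)
      have := D.len_nonneg l (k := k + 1) (mem_range.1 hk)
      rw [norm_mul, Complex.norm_real, Real.norm_of_nonneg this]
      exact mul_le_mul_of_nonneg_left (hb _) this
    have k1 : ‖v l0‖ ≤ ‖v ⟨1, h1⟩‖ := by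
      have a1 := key l0
      have a2 := norm_sub_norm_le (ω * ((β * l0 : ℝ) : ℂ) * v l0) (v ⟨1, h1⟩)
      rw [norm_mul, norm_mul, D.hω, Complex.norm_real,
        Real.norm_of_nonneg (by linarith [(hm l0 l0.2).1])] at a2
      linarith
    have k2 := key ⟨1, h1⟩
    rw [← sub_one_mul, norm_mul] at k2
    simp only [mul_one] at k2
    have k3 : β - 1 < ‖ω * (β : ℂ) - 1‖ := by
      have hβ := D.hβ
      have r1 : ω.re < 1 := by
        refine lt_of_le_of_ne ((Complex.re_le_norm ω).trans_eq D.hω) fun e => D.hω1 ?_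
        have := Complex.sq_norm ω
        rw [D.hω, Complex.normSq_apply, e] at this
        exact Complex.ext e (by simpa using (by nlinarith : ω.im * ω.im = 0))
      refine lt_of_pow_lt_pow_left₀ 2 (norm_nonneg _) ?_
      have := Complex.sq_norm ω
      rw [D.hω, Complex.normSq_apply] at this
      rw [Complex.sq_norm, Complex.normSq_apply]
      simp only [Complex.sub_re, Complex.mul_re, Complex.ofReal_re, Complex.ofReal_im,
        Complex.one_re, Complex.sub_im, Complex.mul_im, Complex.one_im]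
      nlinarith
    have k4 : ‖v l0‖ = 0 := by
      refine le_antisymm (not_lt.1 fun hpos => ?_) (norm_nonneg _)
      nlinarith [norm_nonneg (ω * (β : ℂ) - 1)]
    funext l
    exact norm_le_zero_iff.1 ((hl0 l (mem_univ _)).trans_eq k4)
  obtain ⟨v, hv⟩ := LinearMap.injective_iff_surjective.1 inj fun l =>
    ∑ k ∈ range (s + 1), (len w β l k : ℂ) * g k
  refine ⟨E v, fun l hl => ?_⟩
  have := congrFun hv ⟨l, hl⟩
  rw [hL, ← hE v ⟨l, hl⟩] at this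
  simp only [mul_sub (_ : ℂ) (_ - _), sum_sub_distrib]
  exact sub_eq_zero.2 this

open Classical in
/-- Points with disjoint infinite orbits are few. -/
theorem Dyn.few (D : Dyn s w g β ω F x ζ d) {Λ : Finset ℝ} (h1 : 1 ∈ Λ)
    (hc : ∀ l ∈ Λ, ∀ k ≤ s, w k < β * l → len w β l k ∈ Λ)
    (hm : ∀ l ∈ Λ, 1 ≤ β * l ∧ 0 ≤ l ∧ l ≤ 1) {κ : ℝ} (hκ : 0 < κ)
    (hp : ∀ δ > 0, ∃ R0, ∀ R ≥ R0, ∀ Z : Finset Ω, (∀ z ∈ Z, ‖ζ z‖ ≤ 3 * R) → ∀ u r, δ ≤ r →
      (#{z ∈ Z | u ≤ x z ∧ x z < u + r} : ℝ) ≤ κ * R ^ 2 * r) {ε : ℝ} (hε : 0 < ε) :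
    ∃ R0, ∀ R ≥ R0, ∀ P : Finset Ω, (∀ p ∈ P, ‖ζ p‖ ≤ R) →
      (∀ p ∈ P, ∀ q ∈ P, ∀ n m, F^[n] p = F^[m] q → p = q ∧ n = m) → (#P : ℝ) ≤ ε * R := by
  have hb : 0 < β := zero_lt_one.trans D.hβ
  obtain ⟨h, hh⟩ := D.exists_h h1 hm
  obtain ⟨V, hV1⟩ := ((Λ ×ˢ range (s + 1)).finite_toSet.image fun t : ℝ × ℕ =>
    ‖h (len w β t.1 t.2) - ω * h t.1 - g t.2‖ ^ 2 + ‖h t.1‖ ^ 2).bddAbove
  have hV2 : ∀ l ∈ Λ, ∀ k ≤ s, ‖h (len w β l k) - ω * h l - g k‖ ^ 2 + ‖h l‖ ^ 2 ≤ V :=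
    fun l hl k hk => hV1 ⟨(l, k), by simp [hl, Nat.lt_succ_iff, hk], rfl⟩
  have hH : ∀ l ∈ Λ, ‖h l‖ ^ 2 ≤ V := fun l hl => by
    linarith [hV2 l hl 0 s.zero_le, sq_nonneg ‖h (len w β l 0) - ω * h l - g 0‖]
  have hV0 : 0 ≤ V := (sq_nonneg _).trans (hH 1 h1)
  obtain ⟨G, hG1⟩ := ((range (s + 1)).finite_toSet.image fun k => ‖g k‖).bddAbove
  have hG : ∀ z, ‖g (d z)‖ ≤ G := fun z => hG1 ⟨_, by simp [Nat.lt_succ_iff, (D.hd z).1], rfl⟩
  have hG0 : 0 ≤ G := (norm_nonneg _).trans (hG1 ⟨0, by simp, rfl⟩)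
  have step : ∀ n z, |‖ζ (F^[n] z)‖ - ‖ζ z‖| ≤ n * G := by
    intro n
    induction n with
    | zero => simp
    | succ n ih =>
      intro z
      have a1 := abs_norm_sub_norm_le (ζ (F (F^[n] z))) (ω * ζ (F^[n] z))
      rw [norm_mul, D.hω, one_mul, D.hζ, sub_sub_cancel_left, norm_neg, ← D.hζ] at a1
      rw [Function.iterate_succ_apply', Nat.cast_succ]
      have := abs_sub_le ‖ζ (F (F^[n] z))‖ ‖ζ (F^[n] z)‖ ‖ζ z‖
      linarith [hG (F^[n] z), ih z]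
  obtain ⟨N, hN⟩ := exists_nat_ge (max 1 (6 * κ ^ 2 * V / ε ^ 2))
  have hN1 : (1 : ℝ) ≤ N := (le_max_left _ _).trans hN
  have hN2 : 6 * κ ^ 2 * V ≤ N * ε ^ 2 := (div_le_iff₀ (by positivity)).1 ((le_max_right _ _).trans hN)
  have hδ1 : 1 / β ^ (N + 1) ≤ 1 := (div_le_one (by positivity)).2 (one_le_pow₀ D.hβ.le)
  obtain ⟨R0, hR0⟩ := hp (1 / β ^ (N + 1)) (by positivity)
  refine ⟨max (max R0 1) (2 * N * G), fun R hR P hP hinj => ?_⟩
  have hR1 : 1 ≤ R := (le_max_right _ _).trans ((le_max_left _ _).trans hR)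
  have hR2 : 2 * N * G ≤ R := (le_max_right _ _).trans hR
  replace hR0 := hR0 R ((le_max_left _ _).trans ((le_max_left _ _).trans hR))
  have all : ∀ Z : Finset Ω, (∀ z ∈ Z, ‖ζ z‖ ≤ 3 * R) → (#Z : ℝ) ≤ κ * R ^ 2 := fun Z hZ => by
    have := hR0 Z hZ 0 1 hδ1
    rwa [filter_true_of_mem fun z _ => by simpa using D.x0 z, mul_one] at this
  have ex : ∀ p ∈ P, ∃ n, 3 * R < ‖ζ (F^[n] p)‖ := by
    intro p hp'
    by_contra! hn
    obtain ⟨M, hM⟩ := exists_nat_gt (κ * R ^ 2)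
    have := all ((range M).image fun n => F^[n] p) fun z hz => by
      obtain ⟨n, -, rfl⟩ := mem_image.1 hz
      exact hn n
    rw [card_image_of_injective _ fun n m e => (hinj p hp' p hp' n m e).2, card_range] at this
    linarith
  let m : Ω → ℕ := fun p => if hp' : p ∈ P then Nat.find (ex p hp') else 0
  have m1 : ∀ p ∈ P, 3 * R < ‖ζ (F^[m p] p)‖ := fun p hp' => by
    simpa only [m, dif_pos hp'] using Nat.find_spec (ex p hp')
  have m2 : ∀ p ∈ P, ∀ n < m p, ‖ζ (F^[n] p)‖ ≤ 3 * R := fun p hp' n hn =>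
    not_lt.1 (Nat.find_min (ex p hp') (by simpa only [m, dif_pos hp'] using hn))
  set Z : Finset (Σ _ : Ω, ℕ) := P.sigma fun p => range (m p) with hZ
  let f : (Σ _ : Ω, ℕ) → Ω := fun z => F^[z.2] z.1
  have fi : Set.InjOn f Z := by
    rintro ⟨p, n⟩ hp' ⟨q, k⟩ hq e
    obtain ⟨rfl, rfl⟩ := hinj p (mem_sigma.1 hp').1 q (mem_sigma.1 hq).1 n k e
    rfl
  have fZ : ∀ z ∈ Z.image f, ‖ζ z‖ ≤ 3 * R := fun z hz => by
    obtain ⟨y, hy, rfl⟩ := mem_image.1 hz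
    exact m2 _ (mem_sigma.1 hy).1 _ (mem_range.1 (mem_sigma.1 hy).2)
  have cZ : (#Z : ℝ) ≤ κ * R ^ 2 := by
    rw [← card_image_of_injOn fi]
    exact all _ fZ
  have mo := D.moment hh (fun l hl k hk => by linarith [hV2 l hl k hk, sq_nonneg ‖h l‖]) hH hc
    (m0 := 1 / β) (fun l hl => ⟨(div_le_iff₀ hb).2 (by linarith [(hm l hl).1]), (hm l hl).2⟩) N 1 h1
    Z f (κ * R ^ 2) (1 / β ^ (N + 1)) 0 (by positivity) (by field_simp; rw [pow_succ])
    (fun z _ => (D.x0 _).2) fun u r hr => by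
      refine le_trans ?_ (hR0 _ fZ u r hr)
      rw [filter_image, card_image_of_injOn (fi.mono (coe_subset.2 (filter_subset _ _)))]
  have low : ∀ p ∈ P, N * R ≤ ∑ n ∈ range (m p),
      ‖ζ (F^[N] (F^[n] p)) - ω ^ N * (ζ (F^[n] p) - 0)‖ := by
    intro p hp'
    calc (N * R : ℝ) = ∑ _n ∈ range N, R := by simp
      _ ≤ ∑ n ∈ range N, (‖ζ (F^[m p + n] p)‖ - ‖ζ (F^[n] p)‖) := by
          refine sum_le_sum fun n hn => ?_
          have a1 := (abs_le.1 (step n (F^[m p] p))).1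
          have a2 := (abs_le.1 (step n p)).2
          have a3 : (n : ℝ) * G ≤ N * G :=
            mul_le_mul_of_nonneg_right (Nat.cast_le.2 (mem_range.1 hn).le) hG0
          rw [add_comm, Function.iterate_add_apply]
          linarith [m1 p hp', hP p hp']
      _ = ∑ n ∈ range (m p), (‖ζ (F^[N + n] p)‖ - ‖ζ (F^[n] p)‖) := by
          have a1 := sum_range_add (fun n => ‖ζ (F^[n] p)‖) (m p) N
          have a2 := sum_range_add (fun n => ‖ζ (F^[n] p)‖) N (m p)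
          rw [add_comm (m p), a2] at a1
          rw [sum_sub_distrib, sum_sub_distrib]
          linarith
      _ ≤ _ := by
          refine sum_le_sum fun n _ => ?_
          have := norm_sub_norm_le (ζ (F^[N] (F^[n] p))) (ω ^ N * ζ (F^[n] p))
          rw [norm_mul, norm_pow, D.hω, one_pow, one_mul] at this
          rwa [sub_zero, Function.iterate_add_apply]
  have low2 : #P * (N * R) ≤ ∑ z ∈ Z, ‖ζ (F^[N] (f z)) - ω ^ N * (ζ (f z) - 0)‖ := by
    rw [hZ, sum_sigma, ← nsmul_eq_mul]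
    exact card_nsmul_le_sum _ _ _ low
  have cs := sq_sum_le_card_mul_sum_sq (s := Z)
    (f := fun z => ‖ζ (F^[N] (f z)) - ω ^ N * (ζ (f z) - 0)‖)
  have up : (#P * (N * R)) ^ 2 ≤ κ * R ^ 2 * (2 * (κ * R ^ 2) * 1 * (V + (N + 1) * V)) := by
    refine (pow_le_pow_left₀ (by positivity) low2 2).trans (cs.trans (mul_le_mul cZ
      (mo.trans ?_) (sum_nonneg fun _ _ => sq_nonneg _) (by positivity)))
    rw [zero_add]
    gcongr
    exact hH 1 h1
  refine le_of_mul_le_mul_right (a := N * R) (le_of_sq_le_sq ?_ (by positivity)) (by positivity)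
  refine up.trans ?_
  have a1 : 2 * κ ^ 2 * (V + (N + 1) * V) ≤ N * (N * ε ^ 2) := by
    nlinarith [mul_le_mul_of_nonneg_left hN2 (by positivity : (0 : ℝ) ≤ N),
      mul_nonneg (mul_nonneg (sq_nonneg κ) hV0) (sub_nonneg.2 hN1)]
  nlinarith [mul_le_mul_of_nonneg_left a1 (by positivity : (0 : ℝ) ≤ R ^ 4)]

open Classical in
/-- Packing bound from a lower bound for norms. -/
theorem pack {x y : Ω → ℝ} {ζ : Ω → ℂ} {κ Y : ℝ} (hκ : 0 < κ) (hY : 0 < Y)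
    (hy : ∀ z z', |y z - y z'| ≤ Y)
    (hn : ∀ z z', z ≠ z' → κ ≤ |x z - x z'| * |y z - y z'| * ‖ζ z - ζ z'‖ ^ 2) (δ : ℝ)
    (hδ : 0 < δ) : ∃ R0, ∀ R ≥ R0, ∀ Z : Finset Ω, (∀ z ∈ Z, ‖ζ z‖ ≤ 3 * R) → ∀ u r, δ ≤ r →
      (#{z ∈ Z | u ≤ x z ∧ x z < u + r} : ℝ) ≤ 243 * Y / κ * R ^ 2 * r := by
  refine ⟨√(κ / (3 * Y * δ)), fun R hR Z hZ u r hr => ?_⟩
  have r0 : 0 < r := hδ.trans_le hr
  obtain ⟨ρ, ρ0, hρ⟩ : ∃ ρ : ℝ, 0 < ρ ∧ ρ ^ 2 = κ / (3 * Y * r) :=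
    ⟨√(κ / (3 * Y * r)), by positivity, Real.sq_sqrt (by positivity)⟩
  have ρR : ρ ≤ R := by
    refine le_trans (Real.le_sqrt_of_sq_le ?_) hR
    rw [hρ]
    gcongr
  set M := ⌈3 * R / ρ⌉₊ with hM
  have M1 : 3 * R / ρ ≤ M := Nat.le_ceil _
  have M2 : (M : ℝ) < 3 * R / ρ + 1 := Nat.ceil_lt_add_one (by have := ρ0.trans_le ρR; positivity)
  have fl : ∀ t : ℝ, |t| ≤ 3 * R → ⌊t / ρ⌋ ∈ Icc (-M : ℤ) M := fun t ht => by
    have a1 : |t / ρ| ≤ M := by
      rw [abs_div, abs_of_pos ρ0]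
      exact (div_le_div_of_nonneg_right ht ρ0.le).trans M1
    exact mem_Icc.2 ⟨Int.le_floor.2 (by simpa using (abs_le.1 a1).1),
      Int.floor_le_iff.2 (by push_cast; linarith [(abs_le.1 a1).2])⟩
  have cl : ∀ t t' : ℝ, ⌊t / ρ⌋ = ⌊t' / ρ⌋ → (t - t') ^ 2 ≤ ρ ^ 2 := fun t t' e => by
    have a1 := Int.abs_sub_lt_one_of_floor_eq_floor e
    rw [← sub_div, abs_div, abs_of_pos ρ0, div_lt_one ρ0] at a1
    exact sq_le_sq' (abs_lt.1 a1).1.le (abs_lt.1 a1).2.le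
  have c1 : #{z ∈ Z | u ≤ x z ∧ x z < u + r} ≤ #(Icc (-M : ℤ) M ×ˢ Icc (-M : ℤ) M) := by
    refine card_le_card_of_injOn (fun z => (⌊(ζ z).re / ρ⌋, ⌊(ζ z).im / ρ⌋)) (fun z hz => ?_)
      fun z hz z' hz' e => by_contra fun ne => ?_
    · have := hZ z (mem_filter.1 hz).1
      exact mem_coe.2 (mem_product.2 ⟨fl _ ((Complex.abs_re_le_norm _).trans this),
        fl _ ((Complex.abs_im_le_norm _).trans this)⟩)
    · obtain ⟨-, a1, a2⟩ := mem_filter.1 hz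
      obtain ⟨-, a3, a4⟩ := mem_filter.1 hz'
      have b1 : ‖ζ z - ζ z'‖ ^ 2 ≤ 2 * ρ ^ 2 := by
        have := cl _ _ (congrArg Prod.fst e)
        have := cl _ _ (congrArg Prod.snd e)
        rw [Complex.sq_norm, Complex.normSq_apply, Complex.sub_re, Complex.sub_im]
        nlinarith
      have b2 : |x z - x z'| ≤ r := abs_le.2 ⟨by linarith, by linarith⟩
      have b3 : κ ≤ r * Y * (2 * ρ ^ 2) := (hn z z' ne).trans (by gcongr; exact hy z z')
      rw [hρ] at b3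
      have b4 : r * Y * (2 * (κ / (3 * Y * r))) = 2 / 3 * κ := by field_simp
      linarith
  refine (Nat.cast_le.2 c1).trans ?_
  have c2 : (#(Icc (-M : ℤ) M) : ℝ) = 2 * M + 1 := by
    rw [Int.card_Icc, show (M : ℤ) + 1 - -M = (2 * M + 1 : ℕ) by push_cast; ring, Int.toNat_natCast]
    push_cast
    ring
  have c3 : 1 ≤ R / ρ := (one_le_div ρ0).2 ρR
  have c4 : (2 * M + 1 : ℝ) ≤ 9 * (R / ρ) := by
    rw [mul_div_assoc] at M2
    linarith
  rw [card_product, Nat.cast_mul, c2]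
  calc _ ≤ 9 * (R / ρ) * (9 * (R / ρ)) := by gcongr
    _ = 81 * R ^ 2 / ρ ^ 2 := by field_simp; ring
    _ = _ := by rw [hρ]; field_simp; ring

end Pool.Agent.P.MP_0dc862_nt
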