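import Mathlib

/-! An alternate base whose block map is the greedy map of a given digit set; reversible maps. -/

namespace Pool.Agent.P.MP_0dc862_nt

open Finset

/-- The bases: quotients of consecutive digits, from the top. -/
noncomputable def bs (w : ℕ → ℝ) (s i : ℕ) : ℝ := w (s + 1 - i) / w (s - i)

variable {w : ℕ → ℝ} {s : ℕ}

theorem w_mono (hw : ∀ k ≤ s, w k < w (k + 1)) {k l : ℕ} (h : k ≤ l) (hl : l ≤ s + 1) :
    w k ≤ w l := by
  induction l, h using Nat.le_induction with
  | base => exact le_rfl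
  | succ l _ ih => exact (ih (by omega)).trans (hw l (by omega)).le

theorem w_one (w1 : w 1 = 1) (hw : ∀ k ≤ s, w k < w (k + 1)) {k : ℕ} (h : 1 ≤ k) (hk : k ≤ s + 1) :
    1 ≤ w k := w1 ▸ w_mono hw h hk

theorem bs_gt (w1 : w 1 = 1) (hw : ∀ k ≤ s, w k < w (k + 1)) {i : ℕ} (hi : i < s) :
    1 < bs w s i := by
  have := w_one w1 hw (k := s - i) (by omega) (by omega)
  rw [bs, one_lt_div (by linarith), show s + 1 - i = s - i + 1 by omega]
  exact hw _ (by omega)

theorem bs_prod (w1 : w 1 = 1) (hw : ∀ k ≤ s, w k < w (k + 1)) :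
    ∏ i ∈ range s, bs w s i = w (s + 1) := by
  have : ∀ n ≤ s, ∏ i ∈ range n, bs w s i = w (s + 1) / w (s + 1 - n) := by
    intro n
    induction n with
    | zero =>
      intro _
      have := w_one w1 hw (k := s + 1) (by omega) le_rfl
      rw [prod_range_zero, Nat.sub_zero, div_self (by linarith)]
    | succ n ih =>
      intro hn
      have := w_one w1 hw (k := s + 1 - n) (by omega) (by omega)
      rw [prod_range_succ, ih (by omega), bs, Nat.add_sub_add_right]
      field_simp
  rw [this s le_rfl, Nat.add_sub_cancel_left, w1, div_one]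

theorem bs_step (w0 : w 0 = 0) (w1 : w 1 = 1) (hw : ∀ k ≤ s, w k < w (k + 1))
    (hw' : ∀ k ≤ s, w (k + 1) ≤ w k + 1) {t : ℕ → ℝ}
    (ht : ∀ n, t (n + 1) = Int.fract (bs w s (n % s) * t n)) {n k : ℕ} (hk : k ≤ s)
    (h1 : w k ≤ w (s + 1) * t (n * s)) (h2 : w (s + 1) * t (n * s) < w (k + 1)) :
    t ((n + 1) * s) = w (s + 1) * t (n * s) - w k := by
  have hk0 : 0 ≤ w k := w0 ▸ w_mono hw k.zero_le (by omega)
  have : ∀ i ≤ s, t (n * s + i) =
      (w (s + 1) * t (n * s) - if s + 1 - i ≤ k then w k else 0) / w (s + 1 - i) := by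
    intro i
    induction i with
    | zero =>
      intro _
      have := w_one w1 hw (k := s + 1) (by omega) le_rfl
      rw [if_neg (by omega), Nat.sub_zero, add_zero]
      field_simp
      ring
    | succ i ih =>
      intro hi
      have a1 := w_one w1 hw (k := s + 1 - i) (by omega) (by omega)
      have a2 := w_one w1 hw (k := s - i) (by omega) (by omega)
      have a3 := hw' k hk
      rw [← add_assoc, ht, ih (by omega), Nat.mul_add_mod', Nat.mod_eq_of_lt (by omega), bs,
        Nat.add_sub_add_right, div_mul_div_comm, mul_comm (w (s - i)),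
        mul_div_mul_left _ _ (by linarith)]
      generalize w (s + 1) * t (n * s) = y at h1 h2
      rcases lt_trichotomy k (s - i) with h | h | h
      · rw [if_neg (by omega), if_neg (by omega), sub_zero]
        have := w_mono hw (k := k + 1) (l := s - i) h (by omega)
        exact Int.fract_eq_self.2 ⟨div_nonneg (by linarith) (by linarith),
          (div_lt_one (by linarith)).2 (by linarith)⟩
      · rw [if_neg (by omega), if_pos (by omega), ← h]
        rw [← h] at a2
        exact Int.fract_eq_iff.2 ⟨div_nonneg (by linarith) (by linarith),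
          (div_lt_one (by linarith)).2 (by linarith), 1, by field_simp; ring⟩
      · rw [if_pos (by omega), if_pos (by omega)]
        exact Int.fract_eq_self.2 ⟨div_nonneg (by linarith) (by linarith),
          (div_lt_one (by linarith)).2 (by linarith)⟩
  rw [add_one_mul, this s le_rfl, Nat.add_sub_cancel_left, w1, div_one]
  split_ifs with h
  · rfl
  · rw [show k = 0 by omega, w0]

theorem per_of_return {b t : ℕ → ℝ} (ht : ∀ n, t (n + 1) = Int.fract (b (n % s) * t n)) {k : ℕ}
    (h : t (k * s) = t 0) (n : ℕ) :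
    ⌊b ((n + k * s) % s) * t (n + k * s)⌋ = ⌊b (n % s) * t n⌋ := by
  have : t (n + k * s) = t n := by
    induction n with
    | zero => rwa [zero_add]
    | succ n ih => rw [add_right_comm, ht, ih, Nat.add_mul_mod_self_right, ht]
  rw [this, Nat.add_mul_mod_self_right]

open Classical in
/-- Index of the greedy digit. -/
noncomputable def dig (w : ℕ → ℝ) (s : ℕ) (y : ℝ) : ℕ := Nat.findGreatest (fun k => w k ≤ y) s

theorem dig_spec (w0 : w 0 = 0) {y : ℝ} (h0 : 0 ≤ y) (h1 : y < w (s + 1)) :
    dig w s y ≤ s ∧ w (dig w s y) ≤ y ∧ y < w (dig w s y + 1) := by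
  classical
  have a1 : dig w s y ≤ s := Nat.findGreatest_le s
  refine ⟨a1, Nat.findGreatest_spec (P := fun k => w k ≤ y) s.zero_le (w0 ▸ h0), ?_⟩
  rcases a1.eq_or_lt with h | h
  · rwa [h]
  · exact not_le.1 (Nat.findGreatest_is_greatest (P := fun k => w k ≤ y) (Nat.lt_succ_self _) h)

theorem dig_eq (hw : ∀ k ≤ s, w k < w (k + 1)) {y : ℝ} {k : ℕ} (hk : k ≤ s) (h1 : w k ≤ y)
    (h2 : y < w (k + 1)) : dig w s y = k := by
  classical
  exact Nat.findGreatest_eq_iff.2 ⟨hk, fun _ => h1, fun n h3 h4 =>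
    not_le.2 (h2.trans_le (w_mono hw h3 (by omega)))⟩

/-- Under a reversing symmetry, symmetric points that do not return have disjoint orbits. -/
theorem sym_orbit {α : Type} {G : α → α} {R : α → α → Prop}
    (hf : ∀ z u u', R z u → R z u' → u = u') (hs : ∀ z u, R z u → R u z)
    (hr : ∀ z u, R z u → ∃ u', R (G z) u' ∧ G u' = u) {p q : α} (hp : R p p) (hq : R q q)
    (np : ∀ k > 0, G^[k] p ≠ p) (nq : ∀ k > 0, G^[k] q ≠ q) {n m : ℕ}
    (e : G^[n] p = G^[m] q) : p = q ∧ n = m := by
  have it : ∀ k z u, R z u → ∃ u', R (G^[k] z) u' ∧ G^[k] u' = u := by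
    intro k
    induction k with
    | zero => exact fun z u h => ⟨u, h, rfl⟩
    | succ k ih =>
      intro z u h
      obtain ⟨u1, a1, rfl⟩ := ih z u h
      obtain ⟨u2, a2, rfl⟩ := hr _ _ a1
      exact ⟨u2, by rwa [Function.iterate_succ_apply'], rfl⟩
  have key : ∀ p q n k, R p p → R q q → (∀ k > 0, G^[k] p ≠ p) → G^[n + k] p = G^[n] q →
      p = q ∧ k = 0 := by
    intro p q n k hp hq np e
    obtain ⟨u, a1, a2⟩ := it k p p hp
    obtain ⟨u1, b1, b2⟩ := it n _ _ a1
    obtain ⟨u2, c1, c2⟩ := it n _ _ hq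
    rw [← Function.iterate_add_apply, e] at b1
    obtain rfl : u = q := by rw [← b2, ← c2, hf _ _ _ b1 c1]
    have e2 : G^[k] p = u := hf _ _ _ (hs _ _ a1) hq
    have k0 : k = 0 := by
      by_contra hk
      exact np (k + k) (by omega) (by rw [Function.iterate_add_apply, e2, a2])
    subst k0
    exact ⟨e2, rfl⟩
  rcases le_total m n with h | h
  · obtain ⟨k, rfl⟩ := Nat.exists_eq_add_of_le h
    obtain ⟨a1, rfl⟩ := key p q m k hp hq np e
    exact ⟨a1, rfl⟩
  · obtain ⟨k, rfl⟩ := Nat.exists_eq_add_of_le h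
    obtain ⟨a1, rfl⟩ := key q p n k hq hp nq e.symm
    exact ⟨a1.symm, rfl⟩

end Pool.Agent.P.MP_0dc862_nt
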