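import Pool.Agent.P.MP_0dc862_nt.Core

/-! Best approximations of a rotation, heights, and the number of preimages of a greedy map. -/

namespace Pool.Agent.P.MP_0dc862_nt.Pl

open Finset

/-- best approximation times of an irrational rotation -/
theorem dio {ω : ℂ} (h1 : ‖ω‖ = 1) (h2 : ∀ n, 0 < n → (ω ^ n).im ≠ 0) (N0 : ℕ) :
    ∃ N ≥ N0, ∀ n, 0 < n → n < N → 1 ≤ N * |(ω ^ n).im| := by
  classical
  set φ := ω.arg / Real.pi with hφ
  let e : ℕ → ℝ := fun n => n * φ - round (n * φ)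
  have hs : ∀ n : ℕ, |(ω ^ n).im| = |Real.sin (e n * Real.pi)| := fun n => by
    have a1 : ω ^ n = Complex.exp (((e n * Real.pi + round (n * φ) * Real.pi : ℝ) : ℂ) *
        Complex.I) := by
      have a2 : e n * Real.pi + round (n * φ) * Real.pi = n * ω.arg := by
        simp only [e, hφ]
        field_simp
        ring
      conv_lhs => rw [← Complex.norm_mul_exp_arg_mul_I ω, h1]
      rw [a2, Complex.ofReal_one, one_mul, ← Complex.exp_nat_mul]
      push_cast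
      ring_nf
    rw [a1, Complex.exp_ofReal_mul_I_im, Real.sin_add_int_mul_pi, abs_mul, abs_zpow]
    simp
  have hl : ∀ n : ℕ, 2 * |e n| ≤ |(ω ^ n).im| := fun n => by
    have a1 : |e n| ≤ 1 / 2 := abs_sub_round _
    have a2 := Real.mul_abs_le_abs_sin (x := e n * Real.pi) (by
      rw [abs_mul, abs_of_pos Real.pi_pos]
      nlinarith [Real.pi_pos])
    rw [hs]
    refine le_trans (le_of_eq ?_) a2
    rw [abs_mul, abs_of_pos Real.pi_pos]
    field_simp
  have h0 : ∀ n, 0 < n → 0 < |e n| := fun n hn => abs_pos.2 fun h => h2 n hn (by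
    rw [← abs_eq_zero, hs, h]
    simp)
  obtain ⟨n0, hn0, hmin⟩ := (Icc 1 (N0 + 1)).exists_min_image (fun n => |e n|) ⟨1, by simp⟩
  have d0 := h0 n0 (mem_Icc.1 hn0).1
  have ex : ∃ n, 0 < n ∧ |e n| < |e n0| := by
    obtain ⟨M, hM⟩ := exists_nat_one_div_lt d0
    obtain ⟨k, k0, -, hk⟩ := Real.exists_nat_abs_mul_sub_round_le φ (n := M + 1) (by omega)
    refine ⟨k, k0, (hk.trans ?_).trans_lt hM⟩
    push_cast
    gcongr
    linarith
  obtain ⟨N1, N2⟩ := Nat.find_spec ex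
  set N := Nat.find ex
  refine ⟨N, ?_, fun n hn hN => ?_⟩
  · by_contra hlt
    exact not_le.2 N2 (hmin N (mem_Icc.2 ⟨N1, by omega⟩))
  have a1 : |e N| < |e n| := N2.trans_le (not_lt.1 fun h => Nat.find_min ex hN ⟨hn, h⟩)
  have a2 : (n : ℝ) < N := by exact_mod_cast hN
  have a3 : (0 : ℝ) < n := by exact_mod_cast hn
  have a4 : ((N * round (n * φ) - n * round (N * φ) : ℤ) : ℝ) = n * e N - N * e n := by
    simp only [e]
    push_cast
    ring
  have a5 : N * round (n * φ) - n * round (N * φ) ≠ (0 : ℤ) := fun h => by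
    rw [h, Int.cast_zero, eq_comm, sub_eq_zero] at a4
    have := congrArg abs a4
    rw [abs_mul, abs_mul, Nat.abs_cast, Nat.abs_cast] at this
    nlinarith [abs_nonneg (e N)]
  have a6 : (1 : ℝ) ≤ |n * e N - N * e n| := by
    rw [← a4]
    exact_mod_cast Int.one_le_abs a5
  have a7 := abs_sub (n * e N) (N * e n)
  rw [abs_mul, abs_mul, Nat.abs_cast, Nat.abs_cast] at a7
  nlinarith [hl n, abs_nonneg (e N)]

theorem two {γ γ' : ℝ} (h : γ' < γ) : ∃ C > 0, ∀ a b M : ℝ, |a + b * γ| ≤ M → |a + b * γ'| ≤ M →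
    |a| ≤ C * M ∧ |b| ≤ C * M := by
  have h0 : 0 < γ - γ' := sub_pos.2 h
  refine ⟨1 + 2 / (γ - γ') * (1 + |γ|), by positivity, fun a b M h1 h2 => ?_⟩
  have M0 : 0 ≤ M := (abs_nonneg _).trans h1
  have a1 : |b| ≤ 2 / (γ - γ') * M := by
    rw [div_mul_eq_mul_div, le_div_iff₀ h0, ← abs_of_pos h0, ← abs_mul,
      show b * (γ - γ') = a + b * γ - (a + b * γ') by ring]
    linarith [abs_sub (a + b * γ) (a + b * γ')]
  have a2 := abs_sub (a + b * γ) (b * γ)
  rw [add_sub_cancel_right, abs_mul] at a2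
  have a3 := mul_le_mul_of_nonneg_right a1 (abs_nonneg γ)
  have a4 : 0 ≤ 2 / (γ - γ') * M := by positivity
  have a5 : 0 ≤ 2 / (γ - γ') * M * |γ| := by positivity
  exact ⟨by nlinarith, by nlinarith⟩

/-- coordinates are bounded by the conjugates -/
theorem hts {α γ γ' : ℝ} {z : ℂ} (α0 : 0 < α) (h : γ' < γ) (h1 : z.re = 0) (h2 : z.im ≠ 0) :
    ∃ C > 0, ∀ u0 u1 u2 u3 M : ℝ, |u0 + u2 * γ + α * (u1 + u3 * γ)| ≤ M →
      |u0 + u2 * γ - α * (u1 + u3 * γ)| ≤ M → ‖(u0 + u2 * γ' + z * (u1 + u3 * γ') : ℂ)‖ ≤ M →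
      |u0| ≤ C * M ∧ |u1| ≤ C * M ∧ |u2| ≤ C * M ∧ |u3| ≤ C * M := by
  obtain ⟨C, C0, hC⟩ := two h
  have z0 := abs_pos.2 h2
  refine ⟨C * (1 + 1 / α + 1 / |z.im|), by positivity, fun u0 u1 u2 u3 M k1 k2 k3 => ?_⟩
  have M0 : 0 ≤ M := (abs_nonneg _).trans k1
  have m1 : 0 ≤ 1 / α * M := by positivity
  have m2 : 0 ≤ 1 / |z.im| * M := by positivity
  have a1 := (Complex.abs_re_le_norm _).trans k3
  have a2 := (Complex.abs_im_le_norm _).trans k3
  simp only [Complex.add_re, Complex.mul_re, Complex.ofReal_re, Complex.ofReal_im, h1,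
    Complex.add_im, Complex.mul_im, mul_zero, zero_mul, add_zero, zero_add, sub_zero,
    abs_mul] at a1 a2
  rw [abs_le] at k1 k2
  have b1 := hC u0 u2 ((1 + 1 / α + 1 / |z.im|) * M)
    (le_trans (abs_le.2 ⟨by linarith, by linarith⟩ : _ ≤ M) (by linarith)) (by linarith)
  have b2 := hC u1 u3 ((1 + 1 / α + 1 / |z.im|) * M)
    (le_trans (?_ : _ ≤ 1 / α * M) (by linarith))
    (le_trans (?_ : _ ≤ 1 / |z.im| * M) (by linarith))
  · simp only [← mul_assoc] at b1 b2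
    exact ⟨b1.1, b2.1, b1.2, b2.2⟩
  · rw [one_div, inv_mul_eq_div, le_div_iff₀ α0, ← abs_of_pos α0, ← abs_mul]
    exact abs_le.2 ⟨by linarith, by linarith⟩
  · rw [one_div, inv_mul_eq_div, le_div_iff₀ z0]
    linarith

/-- many preimages -/
theorem pre {Ω : Type} {s : ℕ} {w : ℕ → ℝ} {β : ℝ} {F : Ω → Ω} {x : Ω → ℝ} {inv : Ω → ℕ → Ω}
    {B : ℕ → Ω → Prop} {Λ : Finset ℝ} (hw : ∀ k ≤ s, w k < w (k + 1)) (w0 : w 0 = 0)
    (ws : w (s + 1) = β) (hβ : 0 < β) (hx : ∀ n i, β * x (inv n i) = x n + w i)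
    (hF : ∀ n, ∀ i ≤ s, 0 ≤ x n → x n + w i < w (i + 1) → F (inv n i) = n)
    (hB : ∀ k n, ∀ i ≤ s, B k n → B (k + 1) (inv n i))
    (hc : ∀ l ∈ Λ, ∀ k ≤ s, w k < β * l → len w β l k ∈ Λ) (hm : ∀ l ∈ Λ, 0 ≤ l ∧ l ≤ 1) {y : Ω}
    (y0 : 0 ≤ x y) (y1 : ∀ l ∈ Λ, x y < l) (yB : B 0 y) (k : ℕ) : ∀ l ∈ Λ, ∃ S : Finset Ω,
      l * β ^ k ≤ #S ∧ ∀ n ∈ S, 0 ≤ x n ∧ x n < l ∧ F^[k] n = y ∧ B k n := by
  classical
  induction k with
  | zero => exact fun l hl => ⟨{y}, by simpa using (hm l hl).2, by simpa using ⟨y0, y1 l hl, yB⟩⟩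
  | succ k ih =>
    intro l hl
    have ex : ∀ i, ∃ S : Finset Ω, i ≤ s → len w β l i * β ^ k ≤ #S ∧ ∀ n ∈ S, 0 ≤ x n ∧
        x n + w i < w (i + 1) ∧ x n + w i < β * l ∧ F^[k] n = y ∧ B k n := fun i => by
      by_cases hi : i ≤ s
      swap
      · exact ⟨∅, fun h => absurd h hi⟩
      rcases lt_or_ge (w i) (β * l) with h | h
      · obtain ⟨S, h1, h2⟩ := ih _ (hc l hl i hi h)
        refine ⟨S, fun _ => ⟨h1, fun n hn => ?_⟩⟩
        obtain ⟨a1, a2, a3⟩ := h2 n hn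
        rw [len, min_eq_left h.le, lt_sub_iff_add_lt, lt_min_iff] at a2
        exact ⟨a1, a2.1, a2.2, a3⟩
      · refine ⟨∅, fun _ => ⟨?_, by simp⟩⟩
        rw [len, min_eq_right h, min_eq_right (h.trans (hw i hi).le)]
        simp
    choose S hS using ex
    have wn : ∀ i ≤ s, 0 ≤ w i := fun i hi => w0 ▸ w_mono hw i.zero_le (by omega)
    refine ⟨(range (s + 1)).biUnion fun i => (S i).image (inv · i), ?_, fun n hn => ?_⟩
    · rw [card_biUnion]
      · have e : ∑ i ∈ range (s + 1), len w β l i = β * l := by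
          unfold len
          rw [sum_range_sub fun k => min (w k) (β * l), ws, w0,
            min_eq_right (by nlinarith [hm l hl]), min_eq_left (by nlinarith [hm l hl]), sub_zero]
        rw [pow_succ', ← mul_assoc, mul_comm l, ← e, sum_mul, Nat.cast_sum]
        refine sum_le_sum fun i hi => ?_
        have hi := Nat.lt_succ_iff.1 (mem_range.1 hi)
        rw [card_image_of_injOn fun n hn n' hn' h => ?_]
        · exact (hS i hi).1
        · obtain ⟨a1, a2, -⟩ := (hS i hi).2 n hn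
          obtain ⟨b1, b2, -⟩ := (hS i hi).2 n' hn'
          rw [← hF n i hi a1 a2, ← hF n' i hi b1 b2]
          exact congrArg F h
      · intro i hi i' hi' hne
        have hi := Nat.lt_succ_iff.1 (mem_range.1 hi)
        have hi' := Nat.lt_succ_iff.1 (mem_range.1 hi')
        refine disjoint_left.2 fun m hm hm' => ?_
        obtain ⟨n, hn, rfl⟩ := mem_image.1 hm
        obtain ⟨n', hn', e⟩ := mem_image.1 hm'
        obtain ⟨a1, a2, -⟩ := (hS i hi).2 n hn
        obtain ⟨b1, b2, -⟩ := (hS i' hi').2 n' hn'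
        have e1 := hx n i
        rw [← e, hx] at e1
        rcases lt_or_gt_of_ne hne with h | h
        · linarith [w_mono hw (k := i + 1) (l := i') h (by omega)]
        · linarith [w_mono hw (k := i' + 1) (l := i) h (by omega)]
    · obtain ⟨i, hi, hn⟩ := mem_biUnion.1 hn
      obtain ⟨m, hm, rfl⟩ := mem_image.1 hn
      have hi := Nat.lt_succ_iff.1 (mem_range.1 hi)
      obtain ⟨a1, a2, a3, a4, a5⟩ := (hS i hi).2 m hm
      have e := hx m i
      refine ⟨nonneg_of_mul_nonneg_right ?_ hβ, lt_of_mul_lt_mul_left (e ▸ a3) hβ.le, ?_,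
        hB k m i hi a5⟩
      · linarith [wn i hi]
      · rw [Function.iterate_succ_apply, hF m i hi a1 a2, a4]

end Pool.Agent.P.MP_0dc862_nt.Pl
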