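import Pool.Agent.P.MP_0dc862_nt.Pl0

/-! The greedy map on the lattice, its inverse branches, and disjoint orbit segments. -/

namespace Pool.Agent.P.MP_0dc862_nt.Pl

open Finset Polynomial

theorem drift {Ω : Type} {F : Ω → Ω} {ζ : Ω → ℂ} {ω : ℂ} {G : ℝ} {W : Ω → Prop} (hω : ‖ω‖ = 1)
    (hW : ∀ n, W n → W (F n)) (hζ : ∀ n, W n → ‖ζ (F n) - ω * ζ n‖ ≤ G) {n : Ω} (hn : W n)
    (k : ℕ) : W (F^[k] n) ∧ ‖ζ (F^[k] n) - ω ^ k * ζ n‖ ≤ k * G := by
  induction k with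
  | zero => exact ⟨hn, by simp⟩
  | succ k ih =>
    rw [Function.iterate_succ_apply']
    refine ⟨hW _ ih.1, ?_⟩
    have := norm_add_le (ζ (F (F^[k] n)) - ω * ζ (F^[k] n)) (ω * (ζ (F^[k] n) - ω ^ k * ζ n))
    rw [norm_mul, hω, show ζ (F (F^[k] n)) - ω * ζ (F^[k] n) + ω * (ζ (F^[k] n) - ω ^ k * ζ n) =
      ζ (F (F^[k] n)) - ω ^ (k + 1) * ζ n by ring] at this
    push_cast
    linarith [ih.2, hζ _ ih.1]

/-- orbit segments of far points on a horizontal strip are disjoint -/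
theorem seg {Ω : Type} {F : Ω → Ω} {ζ : Ω → ℂ} {ω : ℂ} {G η : ℝ} {W : Ω → Prop} (hω : ‖ω‖ = 1)
    (hW : ∀ n, W n → W (F n)) (hζ : ∀ n, W n → ‖ζ (F n) - ω * ζ n‖ ≤ G) (G0 : 0 ≤ G)
    (hi : ∀ n n', W n → W n' → F n = F n' → n = n') {N : ℕ}
    (hN : ∀ n, 0 < n → n < N → 1 ≤ N * |(ω ^ n).im|) {A : Finset Ω}
    (hA : ∀ n ∈ A, W n ∧ |(ζ n).im| ≤ η ∧ N * (2 * η + N * G) < |(ζ n).re|) :
    Set.InjOn (fun m : Ω × ℕ => F^[m.2] m.1) ↑(A ×ˢ range N) := by
  have key : ∀ n ∈ A, ∀ n' ∈ A, ∀ k i, i < N → F^[k] n = F^[k + i] n' → n = n' ∧ i = 0 := by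
    intro n hn n' hn' k i hiN e
    obtain ⟨a1, a2, -⟩ := hA n hn
    obtain ⟨b1, b2, b3⟩ := hA n' hn'
    have e1 : n = F^[i] n' := by
      induction k with
      | zero => simpa using e
      | succ k ih =>
        rw [add_right_comm, Function.iterate_succ_apply', Function.iterate_succ_apply'] at e
        exact ih (hi _ _ (drift hω hW hζ a1 _).1 (drift hω hW hζ b1 _).1 e)
    have i0 : i = 0 := by
      by_contra i0
      have c1 := hN i (by omega) hiN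
      have c2 := (Complex.abs_im_le_norm _).trans (drift hω hW hζ b1 i).2
      rw [← e1, Complex.sub_im, Complex.mul_im] at c2
      have c3 : |(ω ^ i).re| ≤ 1 := (Complex.abs_re_le_norm _).trans (by rw [norm_pow, hω, one_pow])
      have c4 : |(ω ^ i).re * (ζ n').im| ≤ η := by
        rw [abs_mul]
        nlinarith [abs_nonneg (ζ n').im, abs_nonneg (ω ^ i).re]
      have c5 : (i : ℝ) * G ≤ N * G := by gcongr
      have c6 : |(ω ^ i).im| * |(ζ n').re| ≤ 2 * η + N * G := by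
        rw [← abs_mul]
        rw [abs_le] at c2 c4 a2 ⊢
        constructor <;> linarith
      have c7 := mul_le_mul_of_nonneg_left c6 (Nat.cast_nonneg (α := ℝ) N)
      nlinarith [abs_nonneg (ζ n').re]
    subst i0
    exact ⟨e1, rfl⟩
  rintro ⟨n, k⟩ h ⟨n', k'⟩ h' e
  simp only [coe_product, Set.mem_prod, mem_coe, mem_range] at h h' e
  rcases le_total k k' with l | l <;> obtain ⟨i, rfl⟩ := Nat.exists_eq_add_of_le l
  · obtain ⟨rfl, rfl⟩ := key n h.1 n' h'.1 k i (by omega) e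
    rfl
  · obtain ⟨rfl, rfl⟩ := key n' h'.1 n h.1 k' i (by omega) e.symm
    rfl

def invV (j : ℕ) (n : V) : V :=
  (5 * n.1 - 6 * n.2.2.1 - 3 * (n.2.2.2 - j * n.2.1),
    2 * n.1 + n.2.1 - 3 * n.2.2.1 - (n.2.2.2 - j * n.2.1),
    -4 * n.1 + 5 * n.2.2.1 + 2 * (n.2.2.2 - j * n.2.1), n.2.2.2 - j * n.2.1)

theorem mul_invV (j : ℕ) (n : V) : mulV j (invV j n) = n := by
  simp only [mulV, invV]
  refine Prod.ext ?_ (Prod.ext ?_ (Prod.ext ?_ ?_)) <;> simp only <;> ring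

/-- normalised coordinate -/
noncomputable def co {K : Type} [Field K] (j q : ℕ) (y : K) (n : V) : K := ez j y n / (2 * q)

noncomputable def dd (j q : ℕ) (α : ℝ) (n : V) : ℕ :=
  dig (fun k => ez j α (wv j k)) (3 * j + 10) (Bz j α * co j q α n)

noncomputable def Fv (j q : ℕ) (α : ℝ) (n : V) : V := mulV j n - (2 * q : ℤ) • wv j (dd j q α n)

def iv (j q : ℕ) (n : V) (i : ℕ) : V := invV j (n - (-(2 * q) : ℤ) • wv j i)

variable {j q : ℕ} {γ γ' α : ℝ} {z : ℂ}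

theorem co_F {K : Type} [Field K] [CharZero K] {y : K}
    (hy : j * (y ^ 2) ^ 2 + (8 - j) * y ^ 2 - 12 = 0) (hq : 0 < q) (n : V) :
    co j q y (Fv j q α n) = Bz j y * co j q y n - ez j y (wv j (dd j q α n)) := by
  have : (q : K) ≠ 0 := by exact_mod_cast hq.ne'
  simp only [co, Fv, ez_sub, ez_smul, ez_mul hy]
  push_cast
  field_simp

theorem co_iv {K : Type} [Field K] [CharZero K] {y : K}
    (hy : j * (y ^ 2) ^ 2 + (8 - j) * y ^ 2 - 12 = 0) (hq : 0 < q) (n : V) (i : ℕ) :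
    Bz j y * co j q y (iv j q n i) = co j q y n + ez j y (wv j i) := by
  have : (q : K) ≠ 0 := by exact_mod_cast hq.ne'
  simp only [co, iv, ← mul_div_assoc, ← ez_mul hy, mul_invV, ez_sub, ez_smul]
  push_cast
  field_simp
  ring

theorem co_u {K : Type} [Field K] [CharZero K] (y : K) (hq : 0 < q) (n : V) :
    12 * q * co j q y n = 6 * n.2.2.1 + (2 * n.2.2.2 - j * n.2.1) * y ^ 2 +
      y * (4 * n.1 + j * n.2.1 * y ^ 2) := by
  have : (q : K) ≠ 0 := by exact_mod_cast hq.ne'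
  simp only [co, ez, ev]
  field_simp
  ring

theorem im_ne (hj : 1 ≤ j) (hD : ¬IsSquare (j ^ 2 + 32 * j + 64)) (h : Roots j γ γ')
    (hα : α ^ 2 = γ) (α0 : 0 ≤ α) (hz : z ^ 2 = γ') (hc : (starRingEnd ℂ) z = -z) (n : ℕ)
    (hn : 0 < n) : (Bz j z ^ n).im ≠ 0 := fun e => by
  have G := good hj h hα α0
  have hα' := h.eq.1
  rw [← hα] at hα'
  obtain ⟨m, h1, h2⟩ := ez_poly hα' (X ^ (n * 2) - 1) (h.eqC hz)
  have a1 : ‖Bz j z ^ n‖ = 1 := by rw [norm_pow, Bz_norm h hz hc, one_pow]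
  have a2 : (Bz j z ^ n) ^ 2 = 1 := by
    have := Complex.mul_conj (Bz j z ^ n)
    rw [Complex.conj_eq_iff_im.2 e, Complex.normSq_eq_norm_sq, a1] at this
    simpa [sq] using this
  simp only [map_sub, map_pow, aeval_X, map_one] at h1 h2
  rw [pow_mul, a2, sub_self] at h2
  rw [ez_zero hj hD h hα hz hc (.inr h2.symm)] at h1
  have a3 := one_lt_pow₀ (by linarith [G.e1, G.a0, G.b0, G.c0, G.cJ] : 1 < Bz j α)
    (by omega : n * 2 ≠ 0)
  simp [ez, ev] at h1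
  linarith

theorem F_x (hj : 1 ≤ j) (h : Roots j γ γ') (hα : α ^ 2 = γ) (α0 : 0 ≤ α) (hq : 0 < q) {n : V}
    (hn : 0 ≤ co j q α n ∧ co j q α n < 1) (k : ℕ) :
    (0 ≤ co j q α ((Fv j q α)^[k] n) ∧ co j q α ((Fv j q α)^[k] n) < 1) ∧
    ∀ t : ℕ → ℝ, t 0 = co j q α n → (∀ i, t (i + 1) = Int.fract
      (bs (fun k => ez j α (wv j k)) (3 * j + 10) (i % (3 * j + 10)) * t i)) →
      t (k * (3 * j + 10)) = co j q α ((Fv j q α)^[k] n) := by
  have G := good hj h hα α0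
  have hα' := h.eq.1
  rw [← hα] at hα'
  induction k with
  | zero => exact ⟨hn, fun t h _ => by rwa [zero_mul]⟩
  | succ k ih =>
    obtain ⟨d1, d2, d3⟩ := G.dig ih.1.1 ih.1.2
    have d4 := (G.gap _ d1).2
    rw [Function.iterate_succ_apply', co_F hα' hq]
    refine ⟨⟨sub_nonneg.2 d2, sub_lt_iff_lt_add'.2 (d3.trans_le d4)⟩, fun t t0 ht => ?_⟩
    have e := ih.2 t t0 ht
    have tp : ez j α (wv j (3 * j + 10 + 1)) = Bz j α := G.top
    rw [bs_step tab_d.1.1.symm tab_d.1.2.1.symm (fun k hk => (G.gap k hk).1)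
      (fun k hk => (G.gap k hk).2) ht d1 (by rwa [G.top, e]) (by rwa [G.top, e]), G.top, e]
    rfl

/-- digits are periodic from the first return on -/
theorem per (hj : 1 ≤ j) (h : Roots j γ γ') (hα : α ^ 2 = γ) (α0 : 0 ≤ α) (hq : 0 < q) {n : V}
    (hn : 0 ≤ co j q α n ∧ co j q α n < 1) {K k : ℕ}
    (e : (Fv j q α)^[k + K] n = (Fv j q α)^[K] n) (t : ℕ → ℝ) (t0 : t 0 = co j q α n)
    (ht : ∀ i, t (i + 1) = Int.fract
      (bs (fun k => ez j α (wv j k)) (3 * j + 10) (i % (3 * j + 10)) * t i)) (i : ℕ)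
    (hi : K * (3 * j + 10) ≤ i) :
    ⌊bs (fun k => ez j α (wv j k)) (3 * j + 10) ((i + k * (3 * j + 10)) % (3 * j + 10)) *
      t (i + k * (3 * j + 10))⌋ =
    ⌊bs (fun k => ez j α (wv j k)) (3 * j + 10) (i % (3 * j + 10)) * t i⌋ := by
  obtain ⟨i, rfl⟩ := Nat.exists_eq_add_of_le' hi
  have := per_of_return (s := 3 * j + 10) (b := bs (fun k => ez j α (wv j k)) (3 * j + 10))
    (t := fun i => t (i + K * (3 * j + 10))) (k := k)
    (fun i => by rw [add_right_comm, ht, Nat.add_mul_mod_self_right]) (by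
      rw [← add_mul, zero_add, (F_x hj h hα α0 hq hn _).2 t t0 ht, e,
        (F_x hj h hα α0 hq hn _).2 t t0 ht]) i
  simpa only [Nat.add_mul_mod_self_right, add_right_comm i (K * _)] using this

end Pool.Agent.P.MP_0dc862_nt.Pl
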