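import Pool.Agent.P.MP_0dc862_nt.Pl1

/-! Many purely periodic points, and many of their preimages. -/

namespace Pool.Agent.P.MP_0dc862_nt.Pl

open Finset

variable {j q : ℕ} {γ γ' α : ℝ} {z : ℂ}

theorem gb (j : ℕ) (α : ℝ) (z : ℂ) : ∃ G ≥ 0, ∀ i ≤ 3 * j + 10,
    |ez j (-α) (wv j i)| ≤ G ∧ ‖ez j z (wv j i)‖ ≤ G := by
  refine ⟨∑ i ∈ range (3 * j + 11), (|ez j (-α) (wv j i)| + ‖ez j z (wv j i)‖),
    sum_nonneg fun _ _ => by positivity, fun i hi => ?_⟩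
  have := single_le_sum (f := fun i => |ez j (-α) (wv j i)| + ‖ez j z (wv j i)‖)
    (fun _ _ => by positivity) (mem_range.2 (by omega : i < 3 * j + 11))
  exact ⟨by linarith [norm_nonneg (ez j z (wv j i))], by linarith [abs_nonneg (ez j (-α) (wv j i))]⟩

theorem pure (hj : 1 ≤ j) (hD : ¬IsSquare (j ^ 2 + 32 * j + 64)) (h : Roots j γ γ')
    (hα : α ^ 2 = γ) (α0 : 0 ≤ α) (hz : z ^ 2 = γ') (hc : (starRingEnd ℂ) z = -z) (hq : 0 < q) :
    ∃ C > 0, ∀ N0 : ℕ, ∃ N ≥ N0, ∃ P : Finset V, (N : ℝ) ^ 3 / 2 ≤ #P ∧ ∀ n ∈ P,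
      (0 ≤ co j q α n ∧ co j q α n < 1) ∧ |co j q (-α) n| ≤ C ∧ ‖co j q z n‖ ≤ C * N ^ 2 ∧
      ∃ k > 0, (Fv j q α)^[k] n = n := by
  classical
  have G := good hj h hα α0
  have hα' := h.eq.1
  rw [← hα] at hα'
  have hα'' : j * ((-α) ^ 2) ^ 2 + (8 - j) * (-α) ^ 2 - 12 = 0 := by rwa [neg_sq]
  set a := 2 * α / 3 with ha
  set b := j * α ^ 2 * (α - 1) / 6 with hb
  set c := α ^ 2 / 3 with hc'
  have q0 : (0 : ℝ) < q := by exact_mod_cast hq
  have wye : ∀ k, wy j a b c k = ez j (-α) (wv j k) := fun k => by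
    simp only [wy, ez, ev, ha, hb, hc']
    ring
  let π : V → ℝ × ℝ := fun n => (co j q α n, co j q (-α) n)
  have hF0 : ∀ n, π (Fv j q α n) = Gm j a b c (Bz j α) (Bz j (-α)) (π n) := fun n => by
    simp only [π, Gm, co_F hα' hq, co_F hα'' hq, wye]
    rfl
  have xi : ∀ n n', co j q α n = co j q α n' → n = n' := fun n n' e =>
    sub_eq_zero.1 (ez_zero hj hD h hα hz hc (.inl (by
      rw [ez_sub, sub_eq_zero]
      exact (div_left_inj' (by positivity)).1 e)))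
  let W : V → Prop := fun n => ∃ u, Rl a b c (j * c) (IxJ j c) (π n) u
  have hW : ∀ n, W n → W (Fv j q α n) := fun n ⟨u, hu⟩ => by
    obtain ⟨u', h1, -⟩ := G.rev _ _ hu
    exact ⟨u', hF0 n ▸ h1⟩
  have hi : ∀ n n', W n → W n' → Fv j q α n = Fv j q α n' → n = n' := by
    rintro n n' ⟨u, hu⟩ ⟨u', hu'⟩ e
    obtain ⟨v, h1, rfl⟩ := G.rev _ _ hu
    obtain ⟨v', h2, rfl⟩ := G.rev _ _ hu'
    rw [← hF0] at h1 h2
    rw [e] at h1
    obtain rfl := Rl.uniq G _ _ _ h1 h2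
    exact xi _ _ (congrArg Prod.fst (Rl.uniq G _ _ _ (hu.symm G) (hu'.symm G)))
  obtain ⟨g, g0, hg⟩ := gb j α z
  have hζ : ∀ n, W n → ‖co j q z (Fv j q α n) - Bz j z * co j q z n‖ ≤ g := fun n ⟨u, hu⟩ => by
    rw [co_F (h.eqC hz) hq, sub_sub_cancel_left, norm_neg]
    exact (hg _ (G.dig (hu.bd G).1 (hu.bd G).2.1).1).2
  have hω := Bz_norm h hz hc
  obtain ⟨κ, κ0, hκ⟩ : ∃ κ : ℝ, 0 < κ ∧ κ = j * (γ - γ') / q :=
    ⟨_, by have := h.lo; have := sub_pos.2 (h.neg.trans (by linarith : 0 < γ)); positivity, rfl⟩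
  obtain ⟨C1, hC1⟩ := exists_nat_gt ((‖z‖ + g + 2) / κ)
  rw [div_lt_iff₀ κ0] at hC1
  have z0 := norm_nonneg z
  have C0 : 0 < C1 := Nat.pos_of_ne_zero fun e => by
    rw [e, Nat.cast_zero, zero_mul] at hC1
    linarith
  have C2 : (1 : ℝ) ≤ C1 := by exact_mod_cast C0
  obtain ⟨R0, hR0⟩ := core hj hD h hα α0 hz hc hq (by norm_num : (0 : ℝ) < 1 / 4)
  have jc : 0 < j * c := by linarith [G.cJ, G.c0]
  refine ⟨3 * (C1 * κ) + (j * c + 2), by positivity, fun N0 => ?_⟩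
  obtain ⟨N, hN0, hN⟩ := dio hω (im_ne hj hD h hα α0 hz hc) (N0 + ⌈R0⌉₊ + 1)
  refine ⟨N, by omega, ?_⟩
  have N1 : (1 : ℝ) ≤ N := by exact_mod_cast (by omega : 1 ≤ N)
  have N2 : (N : ℝ) ≤ N ^ 2 := by nlinarith
  obtain ⟨R, hR⟩ : ∃ R : ℕ, (R : ℝ) = C1 * N ^ 2 := ⟨C1 * N ^ 2, by push_cast; rfl⟩
  have N3 : (N : ℝ) ^ 2 ≤ R := by nlinarith
  let f : ℤ → ℤ := fun v => ⌈-(q * (α / 3) + v * (10 + j * α ^ 2))⌉
  let vec : ℤ → V := fun v => (q, 0, 2 * f v + 20 * v, 6 * j * v)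
  have hv : ∀ v, co j q α (vec v) = α / 3 + (f v + v * (10 + j * α ^ 2)) / q := fun v => by
    simp only [vec, co, ez, ev]
    push_cast
    field_simp
    ring
  have hv' : ∀ v, π (vec v) = (co j q α (vec v), co j q α (vec v) - a) := fun v => by
    refine Prod.ext rfl ?_
    simp only [π, vec, co, ez, ev, ha]
    push_cast
    field_simp
    ring
  have hx : ∀ v, 0 ≤ co j q α (vec v) ∧ co j q α (vec v) < 1 := fun v => by
    have a1 := Int.le_ceil (-(q * (α / 3) + v * (10 + j * α ^ 2)))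
    have a2 := Int.ceil_lt_add_one (-(q * (α / 3) + v * (10 + j * α ^ 2)))
    have q1 : (1 : ℝ) ≤ q := by exact_mod_cast hq
    rw [hv, show α / 3 + (f v + v * (10 + j * α ^ 2)) / q =
      (f v + (q * (α / 3) + v * (10 + j * α ^ 2))) / q by field_simp; ring]
    exact ⟨div_nonneg (by simp only [f]; linarith) q0.le,
      (div_lt_one q0).2 (by simp only [f]; linarith)⟩
  have hz' : ∀ v, co j q z (vec v) = z / 3 + ((co j q α (vec v) - α / 3 - v * κ : ℝ) : ℂ) :=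
    fun v => by
      have : (q : ℂ) ≠ 0 := by exact_mod_cast hq.ne'
      rw [hv, hκ]
      simp only [vec, co, ez, ev, hz, ← hα]
      push_cast
      field_simp
      ring
  let p : ℤ → Prop := fun v => ∃ k > 0, (Fv j q α)^[k] (vec v) = vec v
  have c1 := hR0 (2 * R) (by
      have : (⌈R0⌉₊ : ℝ) ≤ N := by exact_mod_cast (by omega : ⌈R0⌉₊ ≤ N)
      linarith [Nat.le_ceil R0])
    (((Ioc (R : ℤ) (2 * R)).filter fun v => ¬p v).image fun v => (f v, v)) fun m hm => by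
      obtain ⟨v, hv1, rfl⟩ := mem_image.1 hm
      obtain ⟨h1, h2⟩ := mem_filter.1 hv1
      obtain ⟨h3, h4⟩ := mem_Ioc.1 h1
      let t : ℕ → ℝ := fun n => Nat.rec (co j q α (vec v)) (fun i r => Int.fract
        (bs (fun k => ez j α (wv j k)) (3 * j + 10) (i % (3 * j + 10)) * r)) n
      refine ⟨?_, t, hv v, (hx v).1, (hx v).2, fun _ => rfl, fun k hk e => h2 ⟨k, hk, xi _ _ ?_⟩⟩
      · exact_mod_cast (abs_le.2 ⟨by omega, h4⟩ : |v| ≤ 2 * R)
      · rw [← (F_x hj h hα α0 hq (hx v) k).2 t rfl fun _ => rfl, e]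
        rfl
  rw [card_image_of_injective _ fun v v' e => congrArg Prod.snd e] at c1
  have c2 := card_filter_add_card_filter_not (s := Ioc (R : ℤ) (2 * R)) p
  rw [Int.card_Ioc, show (2 * R - R : ℤ).toNat = R by omega] at c2
  have c3 : (#{v ∈ Ioc (R : ℤ) (2 * R) | p v} : ℝ) + #{v ∈ Ioc (R : ℤ) (2 * R) | ¬p v} = R := by
    exact_mod_cast c2
  set A := ((Ioc (R : ℤ) (2 * R)).filter p).image vec
  have c4 : #A = #{v ∈ Ioc (R : ℤ) (2 * R) | p v} := card_image_of_injective _ fun v v' e => by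
    simp only [vec, Prod.mk.injEq, true_and] at e
    exact mul_left_cancel₀ (by omega) e.2
  have hA : ∀ n ∈ A, W n ∧ |(co j q z n).im| ≤ ‖z‖ / 3 ∧
      N * (2 * (‖z‖ / 3) + N * g) < |(co j q z n).re| ∧
      ‖co j q z n‖ ≤ ‖z‖ + 2 + 2 * (R * κ) ∧ ∃ k > 0, (Fv j q α)^[k] n = n := fun n hn => by
    obtain ⟨v, hv1, rfl⟩ := mem_image.1 hn
    obtain ⟨h1, h2⟩ := mem_filter.1 hv1
    obtain ⟨h3, h4⟩ := mem_Ioc.1 h1
    have h5 : R * κ < v * κ := mul_lt_mul_of_pos_right (by exact_mod_cast h3) κ0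
    have h6 : v * κ ≤ 2 * R * κ := mul_le_mul_of_nonneg_right (by exact_mod_cast h4) κ0.le
    have zr : z.re = 0 := by
      have := congrArg Complex.re hc
      simp only [Complex.conj_re, Complex.neg_re] at this
      linarith
    obtain ⟨x0, x1⟩ := hx v
    have a0 := G.a0
    have a1 := G.a1
    have r0 : 0 ≤ R * κ := by positivity
    refine ⟨⟨_, by rw [hv']; exact Rl.diag G x0 x1⟩, ?_, ?_, ?_, h2⟩ <;> rw [hz']
    · simpa [abs_div, div_le_div_iff_of_pos_right] using Complex.abs_im_le_norm z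
    · simp only [Complex.add_re, Complex.div_ofNat_re, zr, Complex.ofReal_re, zero_div, zero_add]
      refine lt_of_lt_of_le ?_ (neg_le_abs _)
      have := mul_le_mul_of_nonneg_left hC1.le (sq_nonneg (N : ℝ))
      rw [hR] at h5
      nlinarith [mul_le_mul_of_nonneg_right N2 z0]
    · refine (norm_add_le _ _).trans ?_
      rw [Complex.norm_real, Real.norm_eq_abs, norm_div, Complex.norm_ofNat]
      have : |co j q α (vec v) - α / 3 - v * κ| ≤ 2 + 2 * (R * κ) :=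
        abs_le.2 ⟨by linarith, by linarith⟩
      linarith
  refine ⟨(A ×ˢ range N).image fun m : V × ℕ => (Fv j q α)^[m.2] m.1, ?_, fun n hn => ?_⟩
  · rw [card_image_of_injOn (seg hω hW hζ g0 hi hN fun n hn =>
      ⟨(hA n hn).1, (hA n hn).2.1, (hA n hn).2.2.1⟩), card_product, card_range, c4]
    push_cast
    nlinarith
  · obtain ⟨⟨m, i⟩, hm, rfl⟩ := mem_image.1 hn
    obtain ⟨h1, h2⟩ := mem_product.1 hm
    obtain ⟨a1, -, -, a2, k, hk, a3⟩ := hA m h1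
    obtain ⟨⟨u, hu⟩, b1⟩ := drift hω hW hζ a1 i
    obtain ⟨b2, b3, b4, b5⟩ := hu.bd G
    have k0 : 0 < C1 * κ := by positivity
    refine ⟨⟨b2, b3⟩, abs_le.2 ⟨by linarith, by linarith⟩, ?_, k, hk, ?_⟩
    · have b6 := norm_le_norm_add_norm_sub' (co j q z ((Fv j q α)^[i] m))
        (Bz j z ^ i * co j q z m)
      rw [norm_mul, norm_pow, hω, one_pow, one_mul] at b6
      have b7 : (i : ℝ) * g ≤ N ^ 2 * g :=
        mul_le_mul_of_nonneg_right (le_trans (by exact_mod_cast (mem_range.1 h2).le) N2) g0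
      have := mul_le_mul_of_nonneg_left hC1.le (sq_nonneg (N : ℝ))
      rw [hR] at a2
      nlinarith [mul_le_mul_of_nonneg_right (N1.trans N2) z0]
    · rw [← Function.iterate_add_apply, add_comm, Function.iterate_add_apply, a3]

theorem more (hj : 1 ≤ j) (h : Roots j γ γ') (hα : α ^ 2 = γ) (α0 : 0 ≤ α) (hz : z ^ 2 = γ')
    (hc : (starRingEnd ℂ) z = -z) (hq : 0 < q) {C : ℝ} (C0 : 0 < C) :
    ∃ C' ≥ C, ∀ N : ℕ, 1 ≤ N → ∀ P : Finset V, (∀ n ∈ P,
      (0 ≤ co j q α n ∧ co j q α n < 1) ∧ |co j q (-α) n| ≤ C ∧ ‖co j q z n‖ ≤ C * N ^ 2 ∧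
      ∃ k > 0, (Fv j q α)^[k] n = n) → ∃ E : Finset V, (N : ℝ) ^ 2 / Bz j α * #P ≤ #E ∧ ∀ n ∈ E,
      (0 ≤ co j q α n ∧ co j q α n < 1) ∧ |co j q (-α) n| ≤ C' * N ^ 2 ∧
      ‖co j q z n‖ ≤ C' * N ^ 2 ∧ ∃ K, ∃ k > 0, (Fv j q α)^[k + K] n = (Fv j q α)^[K] n := by
  classical
  have G := good hj h hα α0
  have hα' := h.eq.1
  rw [← hα] at hα'
  have hα'' : j * ((-α) ^ 2) ^ 2 + (8 - j) * (-α) ^ 2 - 12 = 0 := by rwa [neg_sq]
  obtain ⟨g, g0, hg⟩ := gb j α z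
  have hω := Bz_norm h hz hc
  have g1 := G.e5
  have g2 := G.facts.2.1
  have g3 := G.a0
  have g4 := G.b0
  have g5 := G.c0
  have g7 := G.a1
  have g8 := G.c1
  have β0 : 10 < Bz j α := by linarith [G.e1, G.cJ]
  have gap : ∀ k ≤ 3 * j + 10, ez j α (wv j k) < ez j α (wv j (k + 1)) := fun k hk =>
    (G.gap k hk).1
  have w0 : ez j α (wv j 0) = 0 := by simp [ez, ev, wv]
  have w1 : ez j α (wv j (0 + 1)) = 1 := by simp [ez, ev, wv]
  have hF : ∀ n, ∀ i ≤ 3 * j + 10, 0 ≤ co j q α n →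
      co j q α n + ez j α (wv j i) < ez j α (wv j (i + 1)) → Fv j q α (iv j q n i) = n :=
    fun n i hi h1 h2 => by
      rw [Fv, dd, co_iv hα' hq, dig_eq gap hi (by linarith) h2, iv, mul_invV, neg_smul,
        sub_neg_eq_add, add_sub_cancel_right]
  refine ⟨Bz j α * (C + 2 * g), by nlinarith, fun N hN P hP => ?_⟩
  have N1 : (1 : ℝ) ≤ N ^ 2 := one_le_pow₀ (by exact_mod_cast hN)
  obtain ⟨K, K1, K2⟩ := exists_nat_pow_near N1 (by linarith : 1 < Bz j α)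
  have K3 : (K : ℝ) ≤ N ^ 2 := by
    have := one_add_mul_le_pow (by linarith : -2 ≤ Bz j α - 1) K
    rw [add_sub_cancel] at this
    nlinarith [Nat.cast_nonneg (α := ℝ) K]
  let B : ℕ → V → Prop := fun k n => |co j q (-α) n| ≤ Bz j α ^ k * (C + 2 * g) - 2 * g ∧
    ‖co j q z n‖ ≤ C * N ^ 2 + k * g
  have hB : ∀ k n, ∀ i ≤ 3 * j + 10, B k n → B (k + 1) (iv j q n i) := fun k n i hi ⟨h1, h2⟩ => by
    obtain ⟨h3, h4⟩ := hg i hi
    constructor
    · rw [← one_mul (co j q (-α) _), ← G.e9, mul_assoc, co_iv hα'' hq, abs_mul,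
        abs_of_pos (by linarith), pow_succ']
      have := mul_le_mul_of_nonneg_left ((abs_add_le _ _).trans (add_le_add h1 h3))
        (by linarith : 0 ≤ Bz j α)
      nlinarith
    · rw [← one_mul ‖co j q z _‖, ← hω, ← norm_mul, co_iv (h.eqC hz) hq]
      push_cast
      linarith [norm_add_le (co j q z n) (ez j z (wv j i))]
  have ex : ∀ y, ∃ S : Finset V, y ∈ P → 1 * Bz j α ^ K ≤ #S ∧ ∀ n ∈ S, 0 ≤ co j q α n ∧
      co j q α n < 1 ∧ (Fv j q α)^[K + 1] n = y ∧ B (K + 1) n := fun y => by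
    by_cases hy : y ∈ P
    swap
    · exact ⟨∅, fun h => absurd h hy⟩
    obtain ⟨⟨a1, a2⟩, a3, a4, -⟩ := hP y hy
    have a5 := co_iv hα' hq y 0
    rw [w0, add_zero] at a5
    obtain ⟨S, h1, h2⟩ := pre (F := Fv j q α) (B := fun k => B (k + 1)) gap w0 G.top
      (by linarith) (co_iv hα' hq) hF (fun k => hB (k + 1)) G.closed (by
        simp only [mem_insert, mem_singleton]
        rintro l (rfl | rfl | rfl | rfl) <;> exact ⟨by linarith, by linarith⟩) (y := iv j q y 0)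
      (by nlinarith) (by
        have : co j q α (iv j q y 0) < 1 / 10 := by nlinarith
        simp only [mem_insert, mem_singleton]
        rintro l (rfl | rfl | rfl | rfl) <;> linarith)
      (hB 0 y 0 (by omega) ⟨by simpa using a3, by simpa using a4⟩) K 1 (by simp)
    refine ⟨S, fun _ => ⟨h1, fun n hn => ?_⟩⟩
    obtain ⟨b1, b2, b3, b4⟩ := h2 n hn
    refine ⟨b1, b2, ?_, b4⟩
    rw [Function.iterate_succ_apply', b3, hF y 0 (by omega) a1 (by rw [w0, w1]; linarith)]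
  choose S hS using ex
  refine ⟨P.biUnion S, ?_, fun n hn => ?_⟩
  · rw [card_biUnion fun y hy y' hy' hne => disjoint_left.2 fun n hn hn' => hne
      (((hS y hy).2 n hn).2.2.1.symm.trans ((hS y' hy').2 n hn').2.2.1), Nat.cast_sum, mul_comm,
      ← nsmul_eq_mul]
    refine card_nsmul_le_sum _ _ _ fun y hy => le_trans ?_ (hS y hy).1
    rw [div_le_iff₀ (by linarith), one_mul, ← pow_succ]
    exact K2.le
  · obtain ⟨y, hy, hn⟩ := mem_biUnion.1 hn
    obtain ⟨a1, a2, a3, a4, a5⟩ := (hS y hy).2 n hn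
    obtain ⟨-, -, -, k, hk, e⟩ := hP y hy
    have a6 := mul_le_mul_of_nonneg_right K1 (by positivity : 0 ≤ Bz j α * (C + 2 * g))
    have a7 := mul_le_mul_of_nonneg_right K3 g0
    have a8 := mul_le_mul_of_nonneg_right N1 g0
    have a9 : 0 ≤ (Bz j α - 1) * ((C + 2 * g) * N ^ 2) := mul_nonneg (by linarith) (by positivity)
    refine ⟨⟨a1, a2⟩, ?_, ?_, K + 1, k, hk, by rw [Function.iterate_add_apply, a3, e]⟩
    · rw [pow_succ] at a4
      linarith
    · push_cast at a5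
      linarith

end Pool.Agent.P.MP_0dc862_nt.Pl
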