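import Mathlib

/-! The reflection of the natural extension reverses the greedy map (real coordinates). -/

namespace Pool.Agent.P.MP_0dc862_nt

/-- Linear relations between the parameters; `Ix` is the set of multiples `i * c`, `i ≤ j`. -/
structure Good (a b c J β p : ℝ) (Ix : ℝ → Prop) : Prop where
  e1 : β = 5 + 6 * a + 3 * b + 3 * J
  e2 : β * a = 4 + 5 * a + 2 * b + 2 * J
  e3 : β * b = b + J
  e4 : β * c = 2 + 3 * a + b + J + c
  e5 : p = 5 - 6 * a - 3 * b
  e6 : p * a = 5 * a + 2 * b - 4
  e7 : p * b + p * J = b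
  e8 : p * c = 2 - 3 * a - b + c
  e9 : β * p = 1
  b0 : 0 < b
  c0 : 1 / 3 < c
  c1 : c < 1 / 2
  a0 : 2 / 3 < a
  a1 : a < 5 / 6
  cJ : c ≤ J
  i0 : Ix 0
  i1 : ∀ I, Ix I → 0 ≤ I ∧ I ≤ J ∧ Ix (J - I) ∧ (I = J ∨ I + c ≤ J)
  i2 : ∀ I I', Ix I → Ix I' → I < I' + c → I' < I + c → I = I'

variable {a b c J β p : ℝ} {Ix : ℝ → Prop}

/-- The rectangles `[x0,x1) × [y0,y1)` with the translation parts of the reflection. -/
inductive Pc (a b c J : ℝ) (Ix : ℝ → Prop) : ℝ → ℝ → ℝ → ℝ → ℝ → ℝ → Prop
  | A1 : Pc a b c J Ix 0 c (-a) b a (-a)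
  | A2 : Pc a b c J Ix c (a + b) (-a) (c - a) a (-a)
  | A3 : Pc a b c J Ix c 1 (c - a) (1 - a) a (-a)
  | B : Pc a b c J Ix c 1 (1 - a) c (a - 1) (-a - 1)
  | C : Pc a b c J Ix (a + c - 1) a (c - a - 1) (-a) (2 * a) (-2 * a)
  | D : Pc a b c J Ix 0 (a + c - 1) (c - a - 1) (-a) (a + 1) (1 - a)
  | E (I : ℝ) : Ix I → Pc a b c J Ix 0 c (b + I) (b + I + c) (-b - I) (b + J - I)

/-- A digit, the next digit and the conjugate of the digit. -/
inductive Dg (a b c J : ℝ) (Ix : ℝ → Prop) : ℝ → ℝ → ℝ → Prop
  | d0 : Dg a b c J Ix 0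
      1 0
  | d1 : Dg a b c J Ix 1
      (1 + a) 1
  | d2 : Dg a b c J Ix (1 + a)
      (2 + a) (1 - a)
  | d3 : Dg a b c J Ix (2 + a)
      (2 + 2 * a) (2 - a)
  | w0 : Dg a b c J Ix ((2 + 2 * a + 0 * (a + b + J + 1)))
      ((2 + 2 * a + 0 * (a + b + J + 1)) + a + b) ((2 - 2 * a + 0 * (1 - a - b)))
  | r0 (K : ℝ) : Ix K → K + c ≤ J → Dg a b c J Ix ((2 + 2 * a + 0 * (a + b + J + 1)) + a + b + K)
      ((2 + 2 * a + 0 * (a + b + J + 1)) + a + b + K + c) ((2 - 2 * a + 0 * (1 - a - b)) - a - b - J + K)
  | s0 : Dg a b c J Ix ((2 + 2 * a + 0 * (a + b + J + 1)) + a + b + J)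
      ((2 + 2 * a + 0 * (a + b + J + 1)) + a + b + J + 1) ((2 - 2 * a + 0 * (1 - a - b)) - a - b)
  | w1 : Dg a b c J Ix ((2 + 2 * a + 1 * (a + b + J + 1)))
      ((2 + 2 * a + 1 * (a + b + J + 1)) + a + b) ((2 - 2 * a + 1 * (1 - a - b)))
  | r1 (K : ℝ) : Ix K → K + c ≤ J → Dg a b c J Ix ((2 + 2 * a + 1 * (a + b + J + 1)) + a + b + K)
      ((2 + 2 * a + 1 * (a + b + J + 1)) + a + b + K + c) ((2 - 2 * a + 1 * (1 - a - b)) - a - b - J + K)
  | s1 : Dg a b c J Ix ((2 + 2 * a + 1 * (a + b + J + 1)) + a + b + J)
      ((2 + 2 * a + 1 * (a + b + J + 1)) + a + b + J + 1) ((2 - 2 * a + 1 * (1 - a - b)) - a - b)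
  | w2 : Dg a b c J Ix ((2 + 2 * a + 2 * (a + b + J + 1)))
      ((2 + 2 * a + 2 * (a + b + J + 1)) + a + b) ((2 - 2 * a + 2 * (1 - a - b)))
  | r2 (K : ℝ) : Ix K → K + c ≤ J → Dg a b c J Ix ((2 + 2 * a + 2 * (a + b + J + 1)) + a + b + K)
      ((2 + 2 * a + 2 * (a + b + J + 1)) + a + b + K + c) ((2 - 2 * a + 2 * (1 - a - b)) - a - b - J + K)
  | s2 : Dg a b c J Ix ((2 + 2 * a + 2 * (a + b + J + 1)) + a + b + J)
      ((2 + 2 * a + 2 * (a + b + J + 1)) + a + b + J + 1) ((2 - 2 * a + 2 * (1 - a - b)) - a - b)
  | w3 : Dg a b c J Ix ((2 + 2 * a + 3 * (a + b + J + 1)))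
      ((2 + 2 * a + 3 * (a + b + J + 1)) + a) ((2 - 2 * a + 3 * (1 - a - b)))

/-- The conclusion of the reversal lemma. -/
def Rev (a b c J β p : ℝ) (Ix : ℝ → Prop) (x y tx ty lo t : ℝ) : Prop :=
  ∃ x0 x1 y0 y1 sx sy lo' hi' t', Pc a b c J Ix x0 x1 y0 y1 sx sy ∧ Dg a b c J Ix lo' hi' t' ∧
    x0 ≤ β * x - lo ∧ β * x - lo < x1 ∧ y0 ≤ p * y - t ∧ p * y - t < y1 ∧
    lo' ≤ β * (p * y - t + sx) ∧ β * (p * y - t + sx) < hi' ∧
    β * (p * y - t + sx) - lo' = y + tx ∧ p * (β * x - lo + sy) - t' = x + ty

theorem Good.facts (G : Good a b c J β p Ix) : 0 < β ∧ 0 < p ∧ 0 < p * b ∧ p < 3 * (p * c) ∧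
    2 * (p * c) < p ∧ 2 * p < 3 * (p * a) ∧ 6 * (p * a) < 5 * p ∧ p < 1 / 10 ∧ p * c ≤ p * J := by
  obtain ⟨e1, e2, e3, e4, e5, e6, e7, e8, e9, b0, c0, c1, a0, a1, cJ, -, -, -⟩ := G
  have h1 : 10 < β := by linarith
  have h2 : 0 < p := by nlinarith
  refine ⟨by linarith, h2, by positivity, by nlinarith, by nlinarith, by nlinarith, by nlinarith,
    by nlinarith, by nlinarith⟩

theorem rev_A1 (G : Good a b c J β p Ix) {x y lo hi t : ℝ}
    (x0 : 0 ≤ x) (x1 : x < c) (y0 : -a ≤ y) (y1 : y < b)
    (hd : Dg a b c J Ix lo hi t) (h1 : lo ≤ β * x) (h2 : β * x < hi) :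
    Rev a b c J β p Ix x y a (-a) lo t := by
  obtain ⟨f1, f2, f3, f4, f5, f6, f7, f8, f9⟩ := G.facts
  obtain ⟨e1, e2, e3, e4, e5, e6, e7, e8, e9, b0, c0, c1, a0, a1, cJ, i0, i1, -⟩ := G
  have g0 := mul_le_mul_of_nonneg_left x0 f1.le
  have g1 := mul_lt_mul_of_pos_left x1 f1
  have g2 := mul_le_mul_of_nonneg_left y0 f2.le
  have g3 := mul_lt_mul_of_pos_left y1 f2
  have g4 : β * (p * y) = y := by rw [← mul_assoc, e9, one_mul]
  have g5 : p * (β * x) = x := by rw [← mul_assoc, mul_comm p, e9, one_mul]
  cases hd with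
  | d0 =>
    rcases lt_or_ge (β * x - 0) c with h | h
    · exact ⟨_, _, _, _, _, _, _, _, _, .A1, .w2, by linarith, by linarith, by linarith,
        by linarith, by linarith, by linarith, by linarith, by linarith⟩
    · exact ⟨_, _, _, _, _, _, _, _, _, .A3, .w2, by linarith, by linarith, by linarith,
        by linarith, by linarith, by linarith, by linarith, by linarith⟩
  | d1 =>
    rcases lt_or_ge (β * x - 1) (a + c - 1) with h | h
    · exact ⟨_, _, _, _, _, _, _, _, _, .D, .w2, by linarith, by linarith, by linarith,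
        by linarith, by linarith, by linarith, by linarith, by linarith⟩
    · exact ⟨_, _, _, _, _, _, _, _, _, .C, .w1, by linarith, by linarith, by linarith,
        by linarith, by linarith, by linarith, by linarith, by linarith⟩
  | d2 =>
    rcases lt_or_ge (β * x - (1 + a)) c with h | h
    · exact ⟨_, _, _, _, _, _, _, _, _, .A1, .w1, by linarith, by linarith, by linarith,
        by linarith, by linarith, by linarith, by linarith, by linarith⟩
    · exact ⟨_, _, _, _, _, _, _, _, _, .A3, .w1, by linarith, by linarith, by linarith,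
        by linarith, by linarith, by linarith, by linarith, by linarith⟩
  | d3 =>
    rcases lt_or_ge (β * x - (2 + a)) (a + c - 1) with h | h
    · exact ⟨_, _, _, _, _, _, _, _, _, .D, .w1, by linarith, by linarith, by linarith,
        by linarith, by linarith, by linarith, by linarith, by linarith⟩
    · exact ⟨_, _, _, _, _, _, _, _, _, .C, .w0, by linarith, by linarith, by linarith,
        by linarith, by linarith, by linarith, by linarith, by linarith⟩
  | w0 =>
    rcases lt_or_ge (β * x - ((2 + 2 * a + 0 * (a + b + J + 1)))) c with h | h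
    · exact ⟨_, _, _, _, _, _, _, _, _, .A1, .w0, by linarith, by linarith, by linarith,
        by linarith, by linarith, by linarith, by linarith, by linarith⟩
    · exact ⟨_, _, _, _, _, _, _, _, _, .A2, .w0, by linarith, by linarith, by linarith,
        by linarith, by linarith, by linarith, by linarith, by linarith⟩
  | r0 K hK hK1 =>
    have k0 := (i1 K hK).1
    exact ⟨_, _, _, _, _, _, _, _, _, .E _ (i1 K hK).2.2.1, .w0, by linarith, by linarith, by linarith,
        by linarith, by linarith, by linarith, by linarith, by linarith⟩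
  | s0 =>
    exact ⟨_, _, _, _, _, _, _, _, _, .E _ i0, .w0, by linarith, by linarith, by linarith,
        by linarith, by linarith, by linarith, by linarith, by linarith⟩
  | w1 =>
    exfalso; linarith
  | r1 K hK hK1 =>
    have k0 := (i1 K hK).1
    exfalso; linarith
  | s1 =>
    exfalso; linarith
  | w2 =>
    exfalso; linarith
  | r2 K hK hK1 =>
    have k0 := (i1 K hK).1
    exfalso; linarith
  | s2 =>
    exfalso; linarith
  | w3 =>
    exfalso; linarith

theorem rev_A2 (G : Good a b c J β p Ix) {x y lo hi t : ℝ}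
    (x0 : c ≤ x) (x1 : x < a + b) (y0 : -a ≤ y) (y1 : y < c - a)
    (hd : Dg a b c J Ix lo hi t) (h1 : lo ≤ β * x) (h2 : β * x < hi) :
    Rev a b c J β p Ix x y a (-a) lo t := by
  obtain ⟨f1, f2, f3, f4, f5, f6, f7, f8, f9⟩ := G.facts
  obtain ⟨e1, e2, e3, e4, e5, e6, e7, e8, e9, b0, c0, c1, a0, a1, cJ, i0, i1, -⟩ := G
  have g0 := mul_le_mul_of_nonneg_left x0 f1.le
  have g1 := mul_lt_mul_of_pos_left x1 f1
  have g2 := mul_le_mul_of_nonneg_left y0 f2.le
  have g3 := mul_lt_mul_of_pos_left y1 f2
  have g4 : β * (p * y) = y := by rw [← mul_assoc, e9, one_mul]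
  have g5 : p * (β * x) = x := by rw [← mul_assoc, mul_comm p, e9, one_mul]
  cases hd with
  | d0 =>
    exfalso; linarith
  | d1 =>
    exfalso; linarith
  | d2 =>
    exfalso; linarith
  | d3 =>
    exfalso; linarith
  | w0 =>
    exfalso; linarith
  | r0 K hK hK1 =>
    have k0 := (i1 K hK).1
    exfalso; linarith
  | s0 =>
    exact ⟨_, _, _, _, _, _, _, _, _, .B, .d2, by linarith, by linarith, by linarith,
        by linarith, by linarith, by linarith, by linarith, by linarith⟩
  | w1 =>
    rcases lt_or_ge (β * x - ((2 + 2 * a + 1 * (a + b + J + 1)))) c with h | h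
    · exact ⟨_, _, _, _, _, _, _, _, _, .A1, .d2, by linarith, by linarith, by linarith,
        by linarith, by linarith, by linarith, by linarith, by linarith⟩
    · exact ⟨_, _, _, _, _, _, _, _, _, .A2, .d2, by linarith, by linarith, by linarith,
        by linarith, by linarith, by linarith, by linarith, by linarith⟩
  | r1 K hK hK1 =>
    have k0 := (i1 K hK).1
    exact ⟨_, _, _, _, _, _, _, _, _, .E _ (i1 K hK).2.2.1, .d2, by linarith, by linarith, by linarith,
        by linarith, by linarith, by linarith, by linarith, by linarith⟩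
  | s1 =>
    rcases lt_or_ge (β * x - ((2 + 2 * a + 1 * (a + b + J + 1)) + a + b + J)) c with h | h
    · exact ⟨_, _, _, _, _, _, _, _, _, .E _ i0, .d2, by linarith, by linarith, by linarith,
        by linarith, by linarith, by linarith, by linarith, by linarith⟩
    · exact ⟨_, _, _, _, _, _, _, _, _, .B, .d0, by linarith, by linarith, by linarith,
        by linarith, by linarith, by linarith, by linarith, by linarith⟩
  | w2 =>
    rcases lt_or_ge (β * x - ((2 + 2 * a + 2 * (a + b + J + 1)))) c with h | h
    · exact ⟨_, _, _, _, _, _, _, _, _, .A1, .d0, by linarith, by linarith, by linarith,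
        by linarith, by linarith, by linarith, by linarith, by linarith⟩
    · exact ⟨_, _, _, _, _, _, _, _, _, .A2, .d0, by linarith, by linarith, by linarith,
        by linarith, by linarith, by linarith, by linarith, by linarith⟩
  | r2 K hK hK1 =>
    have k0 := (i1 K hK).1
    exact ⟨_, _, _, _, _, _, _, _, _, .E _ (i1 K hK).2.2.1, .d0, by linarith, by linarith, by linarith,
        by linarith, by linarith, by linarith, by linarith, by linarith⟩
  | s2 =>
    exfalso; linarith
  | w3 =>
    exfalso; linarith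

theorem rev_A3 (G : Good a b c J β p Ix) {x y lo hi t : ℝ}
    (x0 : c ≤ x) (x1 : x < 1) (y0 : c - a ≤ y) (y1 : y < 1 - a)
    (hd : Dg a b c J Ix lo hi t) (h1 : lo ≤ β * x) (h2 : β * x < hi) :
    Rev a b c J β p Ix x y a (-a) lo t := by
  obtain ⟨f1, f2, f3, f4, f5, f6, f7, f8, f9⟩ := G.facts
  obtain ⟨e1, e2, e3, e4, e5, e6, e7, e8, e9, b0, c0, c1, a0, a1, cJ, i0, i1, -⟩ := G
  have g0 := mul_le_mul_of_nonneg_left x0 f1.le
  have g1 := mul_lt_mul_of_pos_left x1 f1
  have g2 := mul_le_mul_of_nonneg_left y0 f2.le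
  have g3 := mul_lt_mul_of_pos_left y1 f2
  have g4 : β * (p * y) = y := by rw [← mul_assoc, e9, one_mul]
  have g5 : p * (β * x) = x := by rw [← mul_assoc, mul_comm p, e9, one_mul]
  cases hd with
  | d0 =>
    exfalso; linarith
  | d1 =>
    exfalso; linarith
  | d2 =>
    exfalso; linarith
  | d3 =>
    exfalso; linarith
  | w0 =>
    exfalso; linarith
  | r0 K hK hK1 =>
    have k0 := (i1 K hK).1
    exfalso; linarith
  | s0 =>
    exact ⟨_, _, _, _, _, _, _, _, _, .B, .d2, by linarith, by linarith, by linarith,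
        by linarith, by linarith, by linarith, by linarith, by linarith⟩
  | w1 =>
    rcases lt_or_ge (β * x - ((2 + 2 * a + 1 * (a + b + J + 1)))) c with h | h
    · exact ⟨_, _, _, _, _, _, _, _, _, .A1, .d2, by linarith, by linarith, by linarith,
        by linarith, by linarith, by linarith, by linarith, by linarith⟩
    · exact ⟨_, _, _, _, _, _, _, _, _, .A2, .d2, by linarith, by linarith, by linarith,
        by linarith, by linarith, by linarith, by linarith, by linarith⟩
  | r1 K hK hK1 =>
    have k0 := (i1 K hK).1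
    exact ⟨_, _, _, _, _, _, _, _, _, .E _ (i1 K hK).2.2.1, .d2, by linarith, by linarith, by linarith,
        by linarith, by linarith, by linarith, by linarith, by linarith⟩
  | s1 =>
    rcases lt_or_ge (β * x - ((2 + 2 * a + 1 * (a + b + J + 1)) + a + b + J)) c with h | h
    · exact ⟨_, _, _, _, _, _, _, _, _, .E _ i0, .d2, by linarith, by linarith, by linarith,
        by linarith, by linarith, by linarith, by linarith, by linarith⟩
    · exact ⟨_, _, _, _, _, _, _, _, _, .B, .d0, by linarith, by linarith, by linarith,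
        by linarith, by linarith, by linarith, by linarith, by linarith⟩
  | w2 =>
    rcases lt_or_ge (β * x - ((2 + 2 * a + 2 * (a + b + J + 1)))) c with h | h
    · exact ⟨_, _, _, _, _, _, _, _, _, .A1, .d0, by linarith, by linarith, by linarith,
        by linarith, by linarith, by linarith, by linarith, by linarith⟩
    · exact ⟨_, _, _, _, _, _, _, _, _, .A2, .d0, by linarith, by linarith, by linarith,
        by linarith, by linarith, by linarith, by linarith, by linarith⟩
  | r2 K hK hK1 =>
    have k0 := (i1 K hK).1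
    exact ⟨_, _, _, _, _, _, _, _, _, .E _ (i1 K hK).2.2.1, .d0, by linarith, by linarith, by linarith,
        by linarith, by linarith, by linarith, by linarith, by linarith⟩
  | s2 =>
    rcases lt_or_ge (β * x - ((2 + 2 * a + 2 * (a + b + J + 1)) + a + b + J)) c with h | h
    · exact ⟨_, _, _, _, _, _, _, _, _, .E _ i0, .d0, by linarith, by linarith, by linarith,
        by linarith, by linarith, by linarith, by linarith, by linarith⟩
    · exact ⟨_, _, _, _, _, _, _, _, _, .A3, .s2, by linarith, by linarith, by linarith,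
        by linarith, by linarith, by linarith, by linarith, by linarith⟩
  | w3 =>
    rcases lt_or_ge (β * x - ((2 + 2 * a + 3 * (a + b + J + 1)))) (a + c - 1) with h | h
    · exact ⟨_, _, _, _, _, _, _, _, _, .D, .s2, by linarith, by linarith, by linarith,
        by linarith, by linarith, by linarith, by linarith, by linarith⟩
    · exact ⟨_, _, _, _, _, _, _, _, _, .C, .s1, by linarith, by linarith, by linarith,
        by linarith, by linarith, by linarith, by linarith, by linarith⟩

theorem rev_B (G : Good a b c J β p Ix) {x y lo hi t : ℝ}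
    (x0 : c ≤ x) (x1 : x < 1) (y0 : 1 - a ≤ y) (y1 : y < c)
    (hd : Dg a b c J Ix lo hi t) (h1 : lo ≤ β * x) (h2 : β * x < hi) :
    Rev a b c J β p Ix x y (a - 1) (-a - 1) lo t := by
  obtain ⟨f1, f2, f3, f4, f5, f6, f7, f8, f9⟩ := G.facts
  obtain ⟨e1, e2, e3, e4, e5, e6, e7, e8, e9, b0, c0, c1, a0, a1, cJ, i0, i1, -⟩ := G
  have g0 := mul_le_mul_of_nonneg_left x0 f1.le
  have g1 := mul_lt_mul_of_pos_left x1 f1
  have g2 := mul_le_mul_of_nonneg_left y0 f2.le
  have g3 := mul_lt_mul_of_pos_left y1 f2
  have g4 : β * (p * y) = y := by rw [← mul_assoc, e9, one_mul]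
  have g5 : p * (β * x) = x := by rw [← mul_assoc, mul_comm p, e9, one_mul]
  cases hd with
  | d0 =>
    exfalso; linarith
  | d1 =>
    exfalso; linarith
  | d2 =>
    exfalso; linarith
  | d3 =>
    exfalso; linarith
  | w0 =>
    exfalso; linarith
  | r0 K hK hK1 =>
    have k0 := (i1 K hK).1
    exfalso; linarith
  | s0 =>
    exact ⟨_, _, _, _, _, _, _, _, _, .B, .d3, by linarith, by linarith, by linarith,
        by linarith, by linarith, by linarith, by linarith, by linarith⟩
  | w1 =>
    rcases lt_or_ge (β * x - ((2 + 2 * a + 1 * (a + b + J + 1)))) c with h | h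
    · exact ⟨_, _, _, _, _, _, _, _, _, .A1, .d3, by linarith, by linarith, by linarith,
        by linarith, by linarith, by linarith, by linarith, by linarith⟩
    · exact ⟨_, _, _, _, _, _, _, _, _, .A2, .d3, by linarith, by linarith, by linarith,
        by linarith, by linarith, by linarith, by linarith, by linarith⟩
  | r1 K hK hK1 =>
    have k0 := (i1 K hK).1
    exact ⟨_, _, _, _, _, _, _, _, _, .E _ (i1 K hK).2.2.1, .d3, by linarith, by linarith, by linarith,
        by linarith, by linarith, by linarith, by linarith, by linarith⟩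
  | s1 =>
    rcases lt_or_ge (β * x - ((2 + 2 * a + 1 * (a + b + J + 1)) + a + b + J)) c with h | h
    · exact ⟨_, _, _, _, _, _, _, _, _, .E _ i0, .d3, by linarith, by linarith, by linarith,
        by linarith, by linarith, by linarith, by linarith, by linarith⟩
    · exact ⟨_, _, _, _, _, _, _, _, _, .B, .d1, by linarith, by linarith, by linarith,
        by linarith, by linarith, by linarith, by linarith, by linarith⟩
  | w2 =>
    rcases lt_or_ge (β * x - ((2 + 2 * a + 2 * (a + b + J + 1)))) c with h | h
    · exact ⟨_, _, _, _, _, _, _, _, _, .A1, .d1, by linarith, by linarith, by linarith,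
        by linarith, by linarith, by linarith, by linarith, by linarith⟩
    · exact ⟨_, _, _, _, _, _, _, _, _, .A2, .d1, by linarith, by linarith, by linarith,
        by linarith, by linarith, by linarith, by linarith, by linarith⟩
  | r2 K hK hK1 =>
    have k0 := (i1 K hK).1
    exact ⟨_, _, _, _, _, _, _, _, _, .E _ (i1 K hK).2.2.1, .d1, by linarith, by linarith, by linarith,
        by linarith, by linarith, by linarith, by linarith, by linarith⟩
  | s2 =>
    rcases lt_or_ge (β * x - ((2 + 2 * a + 2 * (a + b + J + 1)) + a + b + J)) c with h | h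
    · exact ⟨_, _, _, _, _, _, _, _, _, .E _ i0, .d1, by linarith, by linarith, by linarith,
        by linarith, by linarith, by linarith, by linarith, by linarith⟩
    · exact ⟨_, _, _, _, _, _, _, _, _, .A3, .w3, by linarith, by linarith, by linarith,
        by linarith, by linarith, by linarith, by linarith, by linarith⟩
  | w3 =>
    rcases lt_or_ge (β * x - ((2 + 2 * a + 3 * (a + b + J + 1)))) (a + c - 1) with h | h
    · exact ⟨_, _, _, _, _, _, _, _, _, .D, .w3, by linarith, by linarith, by linarith,
        by linarith, by linarith, by linarith, by linarith, by linarith⟩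
    · exact ⟨_, _, _, _, _, _, _, _, _, .C, .w2, by linarith, by linarith, by linarith,
        by linarith, by linarith, by linarith, by linarith, by linarith⟩

theorem rev_C (G : Good a b c J β p Ix) {x y lo hi t : ℝ}
    (x0 : a + c - 1 ≤ x) (x1 : x < a) (y0 : c - a - 1 ≤ y) (y1 : y < -a)
    (hd : Dg a b c J Ix lo hi t) (h1 : lo ≤ β * x) (h2 : β * x < hi) :
    Rev a b c J β p Ix x y (2 * a) (-2 * a) lo t := by
  obtain ⟨f1, f2, f3, f4, f5, f6, f7, f8, f9⟩ := G.facts
  obtain ⟨e1, e2, e3, e4, e5, e6, e7, e8, e9, b0, c0, c1, a0, a1, cJ, i0, i1, -⟩ := G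
  have g0 := mul_le_mul_of_nonneg_left x0 f1.le
  have g1 := mul_lt_mul_of_pos_left x1 f1
  have g2 := mul_le_mul_of_nonneg_left y0 f2.le
  have g3 := mul_lt_mul_of_pos_left y1 f2
  have g4 : β * (p * y) = y := by rw [← mul_assoc, e9, one_mul]
  have g5 : p * (β * x) = x := by rw [← mul_assoc, mul_comm p, e9, one_mul]
  cases hd with
  | d0 =>
    exfalso; linarith
  | d1 =>
    exfalso; linarith
  | d2 =>
    exfalso; linarith
  | d3 =>
    exact ⟨_, _, _, _, _, _, _, _, _, .C, .d3, by linarith, by linarith, by linarith,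
        by linarith, by linarith, by linarith, by linarith, by linarith⟩
  | w0 =>
    rcases lt_or_ge (β * x - ((2 + 2 * a + 0 * (a + b + J + 1)))) c with h | h
    · exact ⟨_, _, _, _, _, _, _, _, _, .A1, .d3, by linarith, by linarith, by linarith,
        by linarith, by linarith, by linarith, by linarith, by linarith⟩
    · exact ⟨_, _, _, _, _, _, _, _, _, .A2, .d3, by linarith, by linarith, by linarith,
        by linarith, by linarith, by linarith, by linarith, by linarith⟩
  | r0 K hK hK1 =>
    have k0 := (i1 K hK).1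
    exact ⟨_, _, _, _, _, _, _, _, _, .E _ (i1 K hK).2.2.1, .d3, by linarith, by linarith, by linarith,
        by linarith, by linarith, by linarith, by linarith, by linarith⟩
  | s0 =>
    rcases lt_or_ge (β * x - ((2 + 2 * a + 0 * (a + b + J + 1)) + a + b + J)) c with h | h
    · exact ⟨_, _, _, _, _, _, _, _, _, .E _ i0, .d3, by linarith, by linarith, by linarith,
        by linarith, by linarith, by linarith, by linarith, by linarith⟩
    · exact ⟨_, _, _, _, _, _, _, _, _, .B, .d1, by linarith, by linarith, by linarith,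
        by linarith, by linarith, by linarith, by linarith, by linarith⟩
  | w1 =>
    rcases lt_or_ge (β * x - ((2 + 2 * a + 1 * (a + b + J + 1)))) c with h | h
    · exact ⟨_, _, _, _, _, _, _, _, _, .A1, .d1, by linarith, by linarith, by linarith,
        by linarith, by linarith, by linarith, by linarith, by linarith⟩
    · exact ⟨_, _, _, _, _, _, _, _, _, .A2, .d1, by linarith, by linarith, by linarith,
        by linarith, by linarith, by linarith, by linarith, by linarith⟩
  | r1 K hK hK1 =>
    have k0 := (i1 K hK).1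
    exact ⟨_, _, _, _, _, _, _, _, _, .E _ (i1 K hK).2.2.1, .d1, by linarith, by linarith, by linarith,
        by linarith, by linarith, by linarith, by linarith, by linarith⟩
  | s1 =>
    rcases lt_or_ge (β * x - ((2 + 2 * a + 1 * (a + b + J + 1)) + a + b + J)) c with h | h
    · exact ⟨_, _, _, _, _, _, _, _, _, .E _ i0, .d1, by linarith, by linarith, by linarith,
        by linarith, by linarith, by linarith, by linarith, by linarith⟩
    · exact ⟨_, _, _, _, _, _, _, _, _, .A3, .w3, by linarith, by linarith, by linarith,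
        by linarith, by linarith, by linarith, by linarith, by linarith⟩
  | w2 =>
    rcases lt_or_ge (β * x - ((2 + 2 * a + 2 * (a + b + J + 1)))) (a + c - 1) with h | h
    · exact ⟨_, _, _, _, _, _, _, _, _, .D, .w3, by linarith, by linarith, by linarith,
        by linarith, by linarith, by linarith, by linarith, by linarith⟩
    · exact ⟨_, _, _, _, _, _, _, _, _, .C, .w2, by linarith, by linarith, by linarith,
        by linarith, by linarith, by linarith, by linarith, by linarith⟩
  | r2 K hK hK1 =>
    have k0 := (i1 K hK).1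
    exfalso; linarith
  | s2 =>
    exfalso; linarith
  | w3 =>
    exfalso; linarith

theorem rev_D (G : Good a b c J β p Ix) {x y lo hi t : ℝ}
    (x0 : 0 ≤ x) (x1 : x < a + c - 1) (y0 : c - a - 1 ≤ y) (y1 : y < -a)
    (hd : Dg a b c J Ix lo hi t) (h1 : lo ≤ β * x) (h2 : β * x < hi) :
    Rev a b c J β p Ix x y (a + 1) (1 - a) lo t := by
  obtain ⟨f1, f2, f3, f4, f5, f6, f7, f8, f9⟩ := G.facts
  obtain ⟨e1, e2, e3, e4, e5, e6, e7, e8, e9, b0, c0, c1, a0, a1, cJ, i0, i1, -⟩ := G
  have g0 := mul_le_mul_of_nonneg_left x0 f1.le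
  have g1 := mul_lt_mul_of_pos_left x1 f1
  have g2 := mul_le_mul_of_nonneg_left y0 f2.le
  have g3 := mul_lt_mul_of_pos_left y1 f2
  have g4 : β * (p * y) = y := by rw [← mul_assoc, e9, one_mul]
  have g5 : p * (β * x) = x := by rw [← mul_assoc, mul_comm p, e9, one_mul]
  cases hd with
  | d0 =>
    rcases lt_or_ge (β * x - 0) c with h | h
    · exact ⟨_, _, _, _, _, _, _, _, _, .A1, .s1, by linarith, by linarith, by linarith,
        by linarith, by linarith, by linarith, by linarith, by linarith⟩
    · exact ⟨_, _, _, _, _, _, _, _, _, .A3, .s1, by linarith, by linarith, by linarith,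
        by linarith, by linarith, by linarith, by linarith, by linarith⟩
  | d1 =>
    rcases lt_or_ge (β * x - 1) (a + c - 1) with h | h
    · exact ⟨_, _, _, _, _, _, _, _, _, .D, .s1, by linarith, by linarith, by linarith,
        by linarith, by linarith, by linarith, by linarith, by linarith⟩
    · exact ⟨_, _, _, _, _, _, _, _, _, .C, .s0, by linarith, by linarith, by linarith,
        by linarith, by linarith, by linarith, by linarith, by linarith⟩
  | d2 =>
    rcases lt_or_ge (β * x - (1 + a)) c with h | h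
    · exact ⟨_, _, _, _, _, _, _, _, _, .A1, .s0, by linarith, by linarith, by linarith,
        by linarith, by linarith, by linarith, by linarith, by linarith⟩
    · exact ⟨_, _, _, _, _, _, _, _, _, .A3, .s0, by linarith, by linarith, by linarith,
        by linarith, by linarith, by linarith, by linarith, by linarith⟩
  | d3 =>
    exact ⟨_, _, _, _, _, _, _, _, _, .D, .s0, by linarith, by linarith, by linarith,
        by linarith, by linarith, by linarith, by linarith, by linarith⟩
  | w0 =>
    exfalso; linarith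
  | r0 K hK hK1 =>
    have k0 := (i1 K hK).1
    exfalso; linarith
  | s0 =>
    exfalso; linarith
  | w1 =>
    exfalso; linarith
  | r1 K hK hK1 =>
    have k0 := (i1 K hK).1
    exfalso; linarith
  | s1 =>
    exfalso; linarith
  | w2 =>
    exfalso; linarith
  | r2 K hK hK1 =>
    have k0 := (i1 K hK).1
    exfalso; linarith
  | s2 =>
    exfalso; linarith
  | w3 =>
    exfalso; linarith

theorem rev_Ei (G : Good a b c J β p Ix) {I : ℝ} (hI : Ix I) (hI1 : I + c ≤ J) {x y lo hi t : ℝ}
    (x0 : 0 ≤ x) (x1 : x < c) (y0 : b + I ≤ y) (y1 : y < b + I + c)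
    (hd : Dg a b c J Ix lo hi t) (h1 : lo ≤ β * x) (h2 : β * x < hi) :
    Rev a b c J β p Ix x y (-b - I) (b + J - I) lo t := by
  obtain ⟨f1, f2, f3, f4, f5, f6, f7, f8, f9⟩ := G.facts
  obtain ⟨e1, e2, e3, e4, e5, e6, e7, e8, e9, b0, c0, c1, a0, a1, cJ, i0, i1, -⟩ := G
  have g0 := mul_le_mul_of_nonneg_left x0 f1.le
  have g1 := mul_lt_mul_of_pos_left x1 f1
  have g2 := mul_le_mul_of_nonneg_left y0 f2.le
  have g3 := mul_lt_mul_of_pos_left y1 f2
  have g4 : β * (p * y) = y := by rw [← mul_assoc, e9, one_mul]
  have g5 : p * (β * x) = x := by rw [← mul_assoc, mul_comm p, e9, one_mul]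
  have g6 := mul_le_mul_of_nonneg_left hI1 f2.le
  have g7 := mul_nonneg f2.le (i1 I hI).1
  have g8 := (i1 I hI).1
  cases hd with
  | d0 =>
    rcases lt_or_ge (β * x - 0) c with h | h
    · exact ⟨_, _, _, _, _, _, _, _, _, .A1, .r2 I hI hI1, by linarith, by linarith, by linarith,
        by linarith, by linarith, by linarith, by linarith, by linarith⟩
    · exact ⟨_, _, _, _, _, _, _, _, _, .A3, .r2 I hI hI1, by linarith, by linarith, by linarith,
        by linarith, by linarith, by linarith, by linarith, by linarith⟩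
  | d1 =>
    rcases lt_or_ge (β * x - 1) (a + c - 1) with h | h
    · exact ⟨_, _, _, _, _, _, _, _, _, .D, .r2 I hI hI1, by linarith, by linarith, by linarith,
        by linarith, by linarith, by linarith, by linarith, by linarith⟩
    · exact ⟨_, _, _, _, _, _, _, _, _, .C, .r1 I hI hI1, by linarith, by linarith, by linarith,
        by linarith, by linarith, by linarith, by linarith, by linarith⟩
  | d2 =>
    rcases lt_or_ge (β * x - (1 + a)) c with h | h
    · exact ⟨_, _, _, _, _, _, _, _, _, .A1, .r1 I hI hI1, by linarith, by linarith, by linarith,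
        by linarith, by linarith, by linarith, by linarith, by linarith⟩
    · exact ⟨_, _, _, _, _, _, _, _, _, .A3, .r1 I hI hI1, by linarith, by linarith, by linarith,
        by linarith, by linarith, by linarith, by linarith, by linarith⟩
  | d3 =>
    rcases lt_or_ge (β * x - (2 + a)) (a + c - 1) with h | h
    · exact ⟨_, _, _, _, _, _, _, _, _, .D, .r1 I hI hI1, by linarith, by linarith, by linarith,
        by linarith, by linarith, by linarith, by linarith, by linarith⟩
    · exact ⟨_, _, _, _, _, _, _, _, _, .C, .r0 I hI hI1, by linarith, by linarith, by linarith,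
        by linarith, by linarith, by linarith, by linarith, by linarith⟩
  | w0 =>
    rcases lt_or_ge (β * x - ((2 + 2 * a + 0 * (a + b + J + 1)))) c with h | h
    · exact ⟨_, _, _, _, _, _, _, _, _, .A1, .r0 I hI hI1, by linarith, by linarith, by linarith,
        by linarith, by linarith, by linarith, by linarith, by linarith⟩
    · exact ⟨_, _, _, _, _, _, _, _, _, .A2, .r0 I hI hI1, by linarith, by linarith, by linarith,
        by linarith, by linarith, by linarith, by linarith, by linarith⟩
  | r0 K hK hK1 =>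
    have k0 := (i1 K hK).1
    exact ⟨_, _, _, _, _, _, _, _, _, .E _ (i1 K hK).2.2.1, .r0 I hI hI1, by linarith, by linarith, by linarith,
        by linarith, by linarith, by linarith, by linarith, by linarith⟩
  | s0 =>
    exact ⟨_, _, _, _, _, _, _, _, _, .E _ i0, .r0 I hI hI1, by linarith, by linarith, by linarith,
        by linarith, by linarith, by linarith, by linarith, by linarith⟩
  | w1 =>
    exfalso; linarith
  | r1 K hK hK1 =>
    have k0 := (i1 K hK).1
    exfalso; linarith
  | s1 =>
    exfalso; linarith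
  | w2 =>
    exfalso; linarith
  | r2 K hK hK1 =>
    have k0 := (i1 K hK).1
    exfalso; linarith
  | s2 =>
    exfalso; linarith
  | w3 =>
    exfalso; linarith

theorem rev_Ej (G : Good a b c J β p Ix) {x y lo hi t : ℝ}
    (x0 : 0 ≤ x) (x1 : x < c) (y0 : b + J ≤ y) (y1 : y < b + J + c)
    (hd : Dg a b c J Ix lo hi t) (h1 : lo ≤ β * x) (h2 : β * x < hi) :
    Rev a b c J β p Ix x y (-b - J) (b + J - J) lo t := by
  obtain ⟨f1, f2, f3, f4, f5, f6, f7, f8, f9⟩ := G.facts
  obtain ⟨e1, e2, e3, e4, e5, e6, e7, e8, e9, b0, c0, c1, a0, a1, cJ, i0, i1, -⟩ := G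
  have g0 := mul_le_mul_of_nonneg_left x0 f1.le
  have g1 := mul_lt_mul_of_pos_left x1 f1
  have g2 := mul_le_mul_of_nonneg_left y0 f2.le
  have g3 := mul_lt_mul_of_pos_left y1 f2
  have g4 : β * (p * y) = y := by rw [← mul_assoc, e9, one_mul]
  have g5 : p * (β * x) = x := by rw [← mul_assoc, mul_comm p, e9, one_mul]
  cases hd with
  | d0 =>
    rcases lt_or_ge (β * x - 0) c with h | h
    · exact ⟨_, _, _, _, _, _, _, _, _, .E _ i0, .d0, by linarith, by linarith, by linarith,
        by linarith, by linarith, by linarith, by linarith, by linarith⟩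
    · exact ⟨_, _, _, _, _, _, _, _, _, .A3, .s2, by linarith, by linarith, by linarith,
        by linarith, by linarith, by linarith, by linarith, by linarith⟩
  | d1 =>
    rcases lt_or_ge (β * x - 1) (a + c - 1) with h | h
    · exact ⟨_, _, _, _, _, _, _, _, _, .D, .s2, by linarith, by linarith, by linarith,
        by linarith, by linarith, by linarith, by linarith, by linarith⟩
    · exact ⟨_, _, _, _, _, _, _, _, _, .C, .s1, by linarith, by linarith, by linarith,
        by linarith, by linarith, by linarith, by linarith, by linarith⟩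
  | d2 =>
    rcases lt_or_ge (β * x - (1 + a)) c with h | h
    · exact ⟨_, _, _, _, _, _, _, _, _, .A1, .s1, by linarith, by linarith, by linarith,
        by linarith, by linarith, by linarith, by linarith, by linarith⟩
    · exact ⟨_, _, _, _, _, _, _, _, _, .A3, .s1, by linarith, by linarith, by linarith,
        by linarith, by linarith, by linarith, by linarith, by linarith⟩
  | d3 =>
    rcases lt_or_ge (β * x - (2 + a)) (a + c - 1) with h | h
    · exact ⟨_, _, _, _, _, _, _, _, _, .D, .s1, by linarith, by linarith, by linarith,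
        by linarith, by linarith, by linarith, by linarith, by linarith⟩
    · exact ⟨_, _, _, _, _, _, _, _, _, .C, .s0, by linarith, by linarith, by linarith,
        by linarith, by linarith, by linarith, by linarith, by linarith⟩
  | w0 =>
    rcases lt_or_ge (β * x - ((2 + 2 * a + 0 * (a + b + J + 1)))) c with h | h
    · exact ⟨_, _, _, _, _, _, _, _, _, .A1, .s0, by linarith, by linarith, by linarith,
        by linarith, by linarith, by linarith, by linarith, by linarith⟩
    · exact ⟨_, _, _, _, _, _, _, _, _, .A2, .s0, by linarith, by linarith, by linarith,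
        by linarith, by linarith, by linarith, by linarith, by linarith⟩
  | r0 K hK hK1 =>
    have k0 := (i1 K hK).1
    exact ⟨_, _, _, _, _, _, _, _, _, .E _ (i1 K hK).2.2.1, .s0, by linarith, by linarith, by linarith,
        by linarith, by linarith, by linarith, by linarith, by linarith⟩
  | s0 =>
    exact ⟨_, _, _, _, _, _, _, _, _, .E _ i0, .s0, by linarith, by linarith, by linarith,
        by linarith, by linarith, by linarith, by linarith, by linarith⟩
  | w1 =>
    exfalso; linarith
  | r1 K hK hK1 =>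
    have k0 := (i1 K hK).1
    exfalso; linarith
  | s1 =>
    exfalso; linarith
  | w2 =>
    exfalso; linarith
  | r2 K hK hK1 =>
    have k0 := (i1 K hK).1
    exfalso; linarith
  | s2 =>
    exfalso; linarith
  | w3 =>
    exfalso; linarith

theorem rev (G : Good a b c J β p Ix) {x0 x1 y0 y1 tx ty x y lo hi t : ℝ}
    (hp : Pc a b c J Ix x0 x1 y0 y1 tx ty) (h0 : x0 ≤ x) (h1 : x < x1) (h2 : y0 ≤ y) (h3 : y < y1)
    (hd : Dg a b c J Ix lo hi t) (h4 : lo ≤ β * x) (h5 : β * x < hi) :
    Rev a b c J β p Ix x y tx ty lo t := by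
  cases hp with
  | A1 => exact rev_A1 G h0 h1 h2 h3 hd h4 h5
  | A2 => exact rev_A2 G h0 h1 h2 h3 hd h4 h5
  | A3 => exact rev_A3 G h0 h1 h2 h3 hd h4 h5
  | B => exact rev_B G h0 h1 h2 h3 hd h4 h5
  | C => exact rev_C G h0 h1 h2 h3 hd h4 h5
  | D => exact rev_D G h0 h1 h2 h3 hd h4 h5
  | E I hI =>
    rcases (G.i1 I hI).2.2.2 with rfl | h
    · exact rev_Ej G h0 h1 h2 h3 hd h4 h5
    · exact rev_Ei G hI h h0 h1 h2 h3 hd h4 h5

end Pool.Agent.P.MP_0dc862_nt
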