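import Pool.Agent.P.MP_0dc862_nt.Rev
import Pool.Agent.P.MP_0dc862_nt.Greedy
import Pool.Agent.P.MP_0dc862_nt.Count

/-! The digit table, the natural extension and its reflection. -/

namespace Pool.Agent.P.MP_0dc862_nt

abbrev V := ℤ × ℤ × ℤ × ℤ

def ev {K : Type} [Field K] (a b c : K) (n : V) : K :=
  n.1 * a + n.2.1 * b + n.2.2.1 + n.2.2.2 * c

def mulV (j : ℕ) (n : V) : V :=
  (5 * n.1 + 6 * n.2.2.1 + 3 * n.2.2.2, 2 * n.1 + n.2.1 + 3 * n.2.2.1 + n.2.2.2,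
    4 * n.1 + 5 * n.2.2.1 + 2 * n.2.2.2, j * (2 * n.1 + n.2.1 + 3 * n.2.2.1 + n.2.2.2) + n.2.2.2)

theorem ev_mulV {K : Type} [Field K] {a b c β : K} {j : ℕ}
    (e1 : β = 5 + 6 * a + 3 * b + 3 * (j * c)) (e2 : β * a = 4 + 5 * a + 2 * b + 2 * (j * c))
    (e3 : β * b = b + j * c) (e4 : β * c = 2 + 3 * a + b + j * c + c) (n : V) :
    ev a b c (mulV j n) = β * ev a b c n := by
  simp only [ev, mulV]
  push_cast
  linear_combination -(n.1 : K) * e2 - (n.2.1 : K) * e3 - (n.2.2.1 : K) * e1 - (n.2.2.2 : K) * e4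

theorem ev_sub {K : Type} [Field K] (a b c : K) (n m : V) :
    ev a b c (n - m) = ev a b c n - ev a b c m := by
  simp only [ev, Prod.fst_sub, Prod.snd_sub]
  push_cast
  ring

theorem ev_smul {K : Type} [Field K] (a b c : K) (q : ℤ) (n : V) :
    ev a b c (q • n) = q * ev a b c n := by
  simp only [ev, Prod.smul_fst, Prod.smul_snd, smul_eq_mul]
  push_cast
  ring

def blk (j m r : ℕ) : V :=
  if r = 0 then (2 + m, m, 2 + m, m * j)
  else (3 + m, if m = 3 then 3 else m + 1, 2 + m, m * j + r - 1)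

/-- The digits, and at the index `3 j + 11` the product of the base. -/
def wv (j k : ℕ) : V :=
  if k < 4 then ((k / 2 : ℕ), 0, ((k + 1) / 2 : ℕ), 0)
  else blk j ((k - 4) / (j + 2)) ((k - 4) % (j + 2))

theorem wv_blk {j r : ℕ} (m : ℕ) (h : r < j + 2) : wv j (4 + m * (j + 2) + r) = blk j m r := by
  rw [wv, if_neg (by omega), add_assoc, Nat.add_sub_cancel_left, add_comm, Nat.add_mul_mod_self_right,
    Nat.add_mul_div_right _ _ (by omega), Nat.div_eq_of_lt h, Nat.mod_eq_of_lt h, zero_add]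

def IxJ (j : ℕ) (c I : ℝ) : Prop := ∃ i ≤ j, I = (i : ℕ) * c

noncomputable def wx (j : ℕ) (a b c : ℝ) (k : ℕ) : ℝ := ev a b c (wv j k)

noncomputable def wy (j : ℕ) (a b c : ℝ) (k : ℕ) : ℝ := ev (-a) (-b - j * c) c (wv j k)

variable {j : ℕ} {a b c β p : ℝ}

def Tab (j : ℕ) (a b c : ℝ) (k : ℕ) (lo hi t : ℝ) : Prop :=
  lo = wx j a b c k ∧ hi = wx j a b c (k + 1) ∧ t = wy j a b c k

theorem tab_w (m : ℕ) (M : ℝ) (hM : M = m) (hm : m ≠ 3) : Tab j a b c (4 + m * (j + 2) + 0)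
    (2 + 2 * a + M * (a + b + j * c + 1)) (2 + 2 * a + M * (a + b + j * c + 1) + a + b)
    (2 - 2 * a + M * (1 - a - b)) := by
  rw [Tab, wx, wx, wy, add_assoc _ 0 1, wv_blk m (by omega), wv_blk m (by omega), hM]
  simp only [blk, ev, if_true, if_neg hm, zero_add, one_ne_zero, if_false]
  refine ⟨?_, ?_, ?_⟩ <;> push_cast <;> ring

theorem tab_w3 : Tab j a b c (4 + 3 * (j + 2) + 0)
    (2 + 2 * a + 3 * (a + b + j * c + 1)) (2 + 2 * a + 3 * (a + b + j * c + 1) + a)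
    (2 - 2 * a + 3 * (1 - a - b)) := by
  rw [Tab, wx, wx, wy, add_assoc _ 0 1, wv_blk 3 (by omega), wv_blk 3 (by omega)]
  simp only [blk, ev, if_true, zero_add, one_ne_zero, if_false]
  refine ⟨?_, ?_, ?_⟩ <;> push_cast <;> ring

theorem tab_r (m : ℕ) (M : ℝ) (hM : M = m) (hm : m ≠ 3) {i : ℕ} (hi : i < j) :
    Tab j a b c (4 + m * (j + 2) + (i + 1))
    (2 + 2 * a + M * (a + b + j * c + 1) + a + b + i * c)
    (2 + 2 * a + M * (a + b + j * c + 1) + a + b + i * c + c)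
    (2 - 2 * a + M * (1 - a - b) - a - b - j * c + i * c) := by
  rw [Tab, wx, wx, wy, add_assoc _ (i + 1) 1, wv_blk m (by omega), wv_blk m (by omega), hM]
  simp only [blk, ev, if_neg hm, Nat.succ_ne_zero, if_false]
  refine ⟨?_, ?_, ?_⟩ <;> push_cast <;> ring

theorem tab_s (m : ℕ) (M : ℝ) (hM : M = m) (hm : m ≠ 3) : Tab j a b c (4 + m * (j + 2) + (j + 1))
    (2 + 2 * a + M * (a + b + j * c + 1) + a + b + j * c)
    (2 + 2 * a + M * (a + b + j * c + 1) + a + b + j * c + 1)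
    (2 - 2 * a + M * (1 - a - b) - a - b) := by
  rw [Tab, wx, wx, wy, show 4 + m * (j + 2) + (j + 1) + 1 = 4 + (m + 1) * (j + 2) + 0 by ring,
    wv_blk m (by omega), wv_blk (m + 1) (by omega), hM]
  simp only [blk, ev, if_neg hm, Nat.succ_ne_zero, if_false, if_true]
  refine ⟨?_, ?_, ?_⟩ <;> push_cast <;> ring

theorem tab_d : Tab j a b c 0 0 1 0 ∧ Tab j a b c 1 1 (1 + a) 1 ∧
    Tab j a b c 2 (1 + a) (2 + a) (1 - a) ∧ Tab j a b c 3 (2 + a) (2 + 2 * a) (2 - a) := by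
  simp only [Tab, wx, wy, wv, blk, ev]
  norm_num
  refine ⟨?_, ⟨?_, ?_, ?_⟩, ?_, ?_, ?_⟩ <;> ring

theorem of_dg (c0 : 0 < c) {lo hi t : ℝ} (h : Dg a b c (j * c) (IxJ j c) lo hi t) :
    ∃ k ≤ 3 * j + 10, Tab j a b c k lo hi t := by
  have lt : ∀ i : ℕ, i * c + c ≤ j * c → i < j := fun i h => by
    have : (i + 1 : ℝ) ≤ j := le_of_mul_le_mul_right (by linarith) c0
    exact_mod_cast this
  cases h with
  | d0 => exact ⟨0, by omega, tab_d.1⟩
  | d1 => exact ⟨1, by omega, tab_d.2.1⟩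
  | d2 => exact ⟨2, by omega, tab_d.2.2.1⟩
  | d3 => exact ⟨3, by omega, tab_d.2.2.2⟩
  | w0 => exact ⟨_, by omega, tab_w 0 0 (by simp) (by simp)⟩
  | w1 => exact ⟨_, by omega, tab_w 1 1 (by simp) (by simp)⟩
  | w2 => exact ⟨_, by omega, tab_w 2 2 (by simp) (by simp)⟩
  | w3 => exact ⟨_, by omega, tab_w3⟩
  | s0 => exact ⟨_, by omega, tab_s 0 0 (by simp) (by simp)⟩
  | s1 => exact ⟨_, by omega, tab_s 1 1 (by simp) (by simp)⟩
  | s2 => exact ⟨_, by omega, tab_s 2 2 (by simp) (by simp)⟩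
  | r0 K h1 h2 =>
    obtain ⟨i, hi, rfl⟩ := h1
    exact ⟨_, by omega, tab_r 0 0 (by simp) (by simp) (lt i h2)⟩
  | r1 K h1 h2 =>
    obtain ⟨i, hi, rfl⟩ := h1
    exact ⟨_, by omega, tab_r 1 1 (by simp) (by simp) (lt i h2)⟩
  | r2 K h1 h2 =>
    obtain ⟨i, hi, rfl⟩ := h1
    exact ⟨_, by have := lt i h2; omega, tab_r 2 2 (by simp) (by simp) (lt i h2)⟩

theorem dg_of (c0 : 0 < c) {k : ℕ} (hk : k ≤ 3 * j + 10) :
    Dg a b c (j * c) (IxJ j c) (wx j a b c k) (wx j a b c (k + 1)) (wy j a b c k) := by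
  have tr : ∀ {k lo hi t}, Tab j a b c k lo hi t → Dg a b c (j * c) (IxJ j c) lo hi t →
      Dg a b c (j * c) (IxJ j c) (wx j a b c k) (wx j a b c (k + 1)) (wy j a b c k) :=
    fun h h' => h.1 ▸ h.2.1 ▸ h.2.2 ▸ h'
  have le : ∀ i : ℕ, i < j → i * c + c ≤ j * c := fun i h => by
    have : (i + 1 : ℝ) ≤ j := by exact_mod_cast h
    nlinarith
  have cs : k = 0 ∨ k = 1 ∨ k = 2 ∨ k = 3 ∨ k = 4 + 0 * (j + 2) + 0 ∨ k = 4 + 1 * (j + 2) + 0 ∨
      k = 4 + 2 * (j + 2) + 0 ∨ k = 4 + 3 * (j + 2) + 0 ∨ k = 4 + 0 * (j + 2) + (j + 1) ∨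
      k = 4 + 1 * (j + 2) + (j + 1) ∨ k = 4 + 2 * (j + 2) + (j + 1) ∨
      (5 ≤ k ∧ k < j + 5) ∨ (j + 7 ≤ k ∧ k < 2 * j + 7) ∨ (2 * j + 9 ≤ k ∧ k < 3 * j + 9) := by
    omega
  rcases cs with rfl | rfl | rfl | rfl | rfl | rfl | rfl | rfl | rfl | rfl | rfl | h | h | h
  · exact tr tab_d.1 .d0
  · exact tr tab_d.2.1 .d1
  · exact tr tab_d.2.2.1 .d2
  · exact tr tab_d.2.2.2 .d3
  · exact tr (tab_w 0 0 (by simp) (by simp)) .w0
  · exact tr (tab_w 1 1 (by simp) (by simp)) .w1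
  · exact tr (tab_w 2 2 (by simp) (by simp)) .w2
  · exact tr tab_w3 .w3
  · exact tr (tab_s 0 0 (by simp) (by simp)) .s0
  · exact tr (tab_s 1 1 (by simp) (by simp)) .s1
  · exact tr (tab_s 2 2 (by simp) (by simp)) .s2
  · obtain ⟨i, hi, rfl⟩ : ∃ i < j, k = 4 + 0 * (j + 2) + (i + 1) := ⟨k - 5, by omega, by omega⟩
    exact tr (tab_r 0 0 (by simp) (by simp) hi) (.r0 _ ⟨i, hi.le, rfl⟩ (le i hi))
  · obtain ⟨i, hi, rfl⟩ : ∃ i < j, k = 4 + 1 * (j + 2) + (i + 1) :=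
      ⟨k - (j + 7), by omega, by omega⟩
    exact tr (tab_r 1 1 (by simp) (by simp) hi) (.r1 _ ⟨i, hi.le, rfl⟩ (le i hi))
  · obtain ⟨i, hi, rfl⟩ : ∃ i < j, k = 4 + 2 * (j + 2) + (i + 1) :=
      ⟨k - (2 * j + 9), by omega, by omega⟩
    exact tr (tab_r 2 2 (by simp) (by simp) hi) (.r2 _ ⟨i, hi.le, rfl⟩ (le i hi))

section

variable {J : ℝ} {Ix : ℝ → Prop}

theorem Dg.gap {lo hi t : ℝ} (h : Dg a b c J Ix lo hi t) :
    hi - lo = 1 ∨ hi - lo = a ∨ hi - lo = a + b ∨ hi - lo = c := by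
  cases h <;> first | (left; ring1) | (right; left; ring1) | (right; right; left; ring1) |
    (right; right; right; ring1)

theorem Dg.cut (G : Good a b c J β p Ix) {lo hi t l : ℝ} (h : Dg a b c J Ix lo hi t)
    (hl : l = 1 ∨ l = a ∨ l = a + b ∨ l = c) (h1 : lo < β * l) (h2 : β * l < hi) :
    β * l - lo = a ∨ β * l - lo = c := by
  obtain ⟨f1, f2, f3, f4, f5, f6, f7, f8, f9⟩ := G.facts
  obtain ⟨e1, e2, e3, e4, e5, e6, e7, e8, e9, b0, c0, c1, a0, a1, cJ, i0, i1, -⟩ := G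
  cases h with
  | r0 K hK hK1 => have := (i1 K hK).1; rcases hl with rfl | rfl | rfl | rfl <;> left <;> linarith
  | r1 K hK hK1 => have := (i1 K hK).1; rcases hl with rfl | rfl | rfl | rfl <;> left <;> linarith
  | r2 K hK hK1 => have := (i1 K hK).1; rcases hl with rfl | rfl | rfl | rfl <;> left <;> linarith
  | s0 => rcases hl with rfl | rfl | rfl | rfl <;> right <;> linarith
  | _ => rcases hl with rfl | rfl | rfl | rfl <;> left <;> linarith

/-- The graph of the reflection. -/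
def Rl (a b c J : ℝ) (Ix : ℝ → Prop) (z u : ℝ × ℝ) : Prop :=
  ∃ x0 x1 y0 y1 tx ty, Pc a b c J Ix x0 x1 y0 y1 tx ty ∧ x0 ≤ z.1 ∧ z.1 < x1 ∧ y0 ≤ z.2 ∧
    z.2 < y1 ∧ u.1 = z.2 + tx ∧ u.2 = z.1 + ty

theorem Rl.bd (G : Good a b c J β p Ix) {z u : ℝ × ℝ} (h : Rl a b c J Ix z u) :
    0 ≤ z.1 ∧ z.1 < 1 ∧ -2 ≤ z.2 ∧ z.2 ≤ J + 2 := by
  obtain ⟨f1, f2, f3, f4, f5, f6, f7, f8, f9⟩ := G.facts
  obtain ⟨e1, e2, e3, e4, e5, e6, e7, e8, e9, b0, c0, c1, a0, a1, cJ, i0, i1, -⟩ := G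
  obtain ⟨_, _, _, _, _, _, hp, h1, h2, h3, h4, -⟩ := h
  cases hp with
  | E I hI =>
    obtain ⟨k0, k1, -⟩ := i1 I hI
    exact ⟨by linarith, by linarith, by linarith, by linarith⟩
  | _ => exact ⟨by linarith, by linarith, by linarith, by linarith⟩

theorem Rl.symm (G : Good a b c J β p Ix) (z u : ℝ × ℝ) (h : Rl a b c J Ix z u) :
    Rl a b c J Ix u z := by
  obtain ⟨e1, e2, e3, e4, e5, e6, e7, e8, e9, b0, c0, c1, a0, a1, cJ, i0, i1, -⟩ := G
  obtain ⟨_, _, _, _, _, _, hp, h1, h2, h3, h4, h5, h6⟩ := h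
  cases hp with
  | A1 =>
    rcases lt_or_ge u.1 c with h | h
    · exact ⟨_, _, _, _, _, _, .A1, by linarith, by linarith, by linarith, by linarith,
        by linarith, by linarith⟩
    · exact ⟨_, _, _, _, _, _, .A2, by linarith, by linarith, by linarith, by linarith,
        by linarith, by linarith⟩
  | A2 => exact ⟨_, _, _, _, _, _, .A1, by linarith, by linarith, by linarith, by linarith,
        by linarith, by linarith⟩
  | A3 => exact ⟨_, _, _, _, _, _, .A3, by linarith, by linarith, by linarith, by linarith,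
        by linarith, by linarith⟩
  | B => exact ⟨_, _, _, _, _, _, .D, by linarith, by linarith, by linarith, by linarith,
        by linarith, by linarith⟩
  | C => exact ⟨_, _, _, _, _, _, .C, by linarith, by linarith, by linarith, by linarith,
        by linarith, by linarith⟩
  | D => exact ⟨_, _, _, _, _, _, .B, by linarith, by linarith, by linarith, by linarith,
        by linarith, by linarith⟩
  | E I hI => exact ⟨_, _, _, _, _, _, .E _ (i1 I hI).2.2.1, by linarith, by linarith,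
        by linarith, by linarith, by linarith, by linarith⟩

theorem Rl.uniq (G : Good a b c J β p Ix) (z u u' : ℝ × ℝ) (h : Rl a b c J Ix z u)
    (h' : Rl a b c J Ix z u') : u = u' := by
  obtain ⟨e1, e2, e3, e4, e5, e6, e7, e8, e9, b0, c0, c1, a0, a1, cJ, i0, i1, i2⟩ := G
  obtain ⟨_, _, _, _, _, _, hp, h1, h2, h3, h4, h5, h6⟩ := h
  obtain ⟨_, _, _, _, _, _, hp', k1, k2, k3, k4, k5, k6⟩ := h'
  cases hp with
  | E I hI =>
    have := (i1 I hI).1
    cases hp' with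
    | E I' hI' =>
      obtain rfl := i2 I I' hI hI' (by linarith) (by linarith)
      exact Prod.ext (by linarith) (by linarith)
    | _ => exact Prod.ext (by linarith) (by linarith)
  | _ =>
    cases hp' with
    | E I' hI' =>
      have := (i1 I' hI').1
      exact Prod.ext (by linarith) (by linarith)
    | _ => exact Prod.ext (by linarith) (by linarith)

theorem Rl.diag (G : Good a b c J β p Ix) {x : ℝ} (h0 : 0 ≤ x) (h1 : x < 1) :
    Rl a b c J Ix (x, x - a) (x, x - a) := by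
  have := G.b0
  have := G.a0
  have := G.c1
  rcases lt_or_ge x c with h | h
  · exact ⟨_, _, _, _, _, _, .A1, h0, h, by simpa, by linarith, by simp, rfl⟩
  · exact ⟨_, _, _, _, _, _, .A3, h, h1, by simpa, by simpa, by simp, rfl⟩

end

/-- The natural extension of the greedy map. -/
noncomputable def Gm (j : ℕ) (a b c β p : ℝ) (z : ℝ × ℝ) : ℝ × ℝ :=
  (β * z.1 - wx j a b c (dig (wx j a b c) (3 * j + 10) (β * z.1)),
    p * z.2 - wy j a b c (dig (wx j a b c) (3 * j + 10) (β * z.1)))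

variable (G : Good a b c (j * c) β p (IxJ j c))
include G

theorem Good.gap (k : ℕ) (hk : k ≤ 3 * j + 10) :
    wx j a b c k < wx j a b c (k + 1) ∧ wx j a b c (k + 1) ≤ wx j a b c k + 1 := by
  obtain ⟨f1, f2, f3, f4, f5, f6, f7, f8, f9⟩ := G.facts
  obtain ⟨e1, e2, e3, e4, e5, e6, e7, e8, e9, b0, c0, c1, a0, a1, -⟩ := G
  rcases (dg_of (a := a) (b := b) (by linarith : 0 < c) hk).gap with h | h | h | h <;>
    exact ⟨by linarith, by linarith⟩

theorem Good.top : wx j a b c (3 * j + 10 + 1) = β := by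
  rw [show 3 * j + 10 = 4 + 3 * (j + 2) + 0 by ring, ← tab_w3.2.1, G.e1]
  ring

theorem Good.dig {x : ℝ} (h0 : 0 ≤ x) (h1 : x < 1) :
    dig (wx j a b c) (3 * j + 10) (β * x) ≤ 3 * j + 10 ∧
    wx j a b c (dig (wx j a b c) (3 * j + 10) (β * x)) ≤ β * x ∧
    β * x < wx j a b c (dig (wx j a b c) (3 * j + 10) (β * x) + 1) :=
  dig_spec tab_d.1.1.symm (mul_nonneg G.facts.1.le h0)
    (by rw [G.top]; exact mul_lt_of_lt_one_right G.facts.1 h1)

theorem Good.rev (z u : ℝ × ℝ) (h : Rl a b c (j * c) (IxJ j c) z u) :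
    ∃ u', Rl a b c (j * c) (IxJ j c) (Gm j a b c β p z) u' ∧ Gm j a b c β p u' = u := by
  have c0 : 0 < c := by linarith [G.c0]
  obtain ⟨d1, d2, d3⟩ := G.dig (h.bd G).1 (h.bd G).2.1
  obtain ⟨_, _, _, _, _, _, hp, h1, h2, h3, h4, h5, h6⟩ := h
  obtain ⟨x0, x1, y0, y1, sx, sy, lo, hi, t, r1, r2, r3, r4, r5, r6, r7, r8, r9, r10⟩ :=
    MP_0dc862_nt.rev G hp h1 h2 h3 h4 (dg_of c0 d1) d2 d3
  obtain ⟨k, hk, rfl, rfl, rfl⟩ := of_dg c0 r2
  refine ⟨(_, _), ⟨_, _, _, _, _, _, r1, r3, r4, r5, r6, rfl, rfl⟩, ?_⟩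
  simp only [Gm] at r9 r10 ⊢
  rw [dig_eq (fun k hk => (G.gap k hk).1) hk r7 r8]
  exact Prod.ext (r9.trans h5.symm) (r10.trans h6.symm)

theorem Good.closed : ∀ l ∈ ({1, a, a + b, c} : Finset ℝ), ∀ k ≤ 3 * j + 10,
    wx j a b c k < β * l → len (wx j a b c) β l k ∈ ({1, a, a + b, c} : Finset ℝ) := by
  intro l hl k hk h
  have hd := dg_of (a := a) (b := b) (by linarith [G.c0] : 0 < c) hk
  simp only [Finset.mem_insert, Finset.mem_singleton] at hl ⊢
  rw [len, min_eq_left h.le]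
  rcases le_or_gt (wx j a b c (k + 1)) (β * l) with h' | h'
  · rw [min_eq_left h']
    exact hd.gap
  · rw [min_eq_right h'.le]
    rcases hd.cut G hl h h' with e | e <;> simp [e]

end Pool.Agent.P.MP_0dc862_nt
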